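import Pool.Agent.Lib.MP_a78e1f_lc.H57.Ind

/-!
# Module EXI: countable support iterations exist
-/

set_option autoImplicit false

universe u v w

open Cardinal Filter MeasureTheory

namespace Pool.Agent.Lib.MP_a78e1f_lc.H57

open Pool.Agent.Lib.MP_100a6c_lc
open Pool.Agent.Lib.MP_c5d73d_lc.F (pr)
open Pool.Agent.Lib.MP_e6fef2_lc
open Pool.Agent.Lib.MP_6d445e_gt (Idw Ult ae IsMil)

/-! ### Names of trees exist -/

theorem tx_ne {𝒯 : Set (List ℕ) → Prop} (h : TFam 𝒯) (A : Type u) [CompleteBooleanAlgebra A] :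
    Nonempty (TX 𝒯 A) := by
  classical
  obtain ⟨T, hT⟩ := h.ne
  refine ⟨⟨fun t => if t ∈ T then ⊤ else ⊥, Filter.Eventually.of_forall fun g => ?_⟩⟩
  have h1 : {t : List ℕ | (if t ∈ T then (⊤ : A) else ⊥) ∈ g} = T := by
    ext t
    show (if t ∈ T then (⊤ : A) else ⊥) ∈ g ↔ t ∈ T
    by_cases ht : t ∈ T
    · rw [if_pos ht]
      exact ⟨fun _ => ht, fun _ => g.mem_top⟩
    · rw [if_neg ht]
      exact ⟨fun h => absurd h g.not_bot, fun h => absurd h ht⟩
  have h2 : 𝒯 {t : List ℕ | (if t ∈ T then (⊤ : A) else ⊥) ∈ g} := by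
    rw [h1]
    exact hT
  exact h2

theorem tE_ce {𝒯 : Set (List ℕ) → Prop} (h : TFam 𝒯) (A : Type u) [CompleteBooleanAlgebra A] :
    IsCE (tE 𝒯 A) := by
  haveI := tx_ne h A
  exact (all_tw1 A (TX 𝒯 A) (TQ 𝒯 A)).1

/-! ### An extension of the last algebra of a chain -/

section

variable {L : Type u} [LinearOrder L] {A : L → Type u} [∀ i, CompleteBooleanAlgebra (A i)]
  {f : ∀ i j, A i → A j} {C : Type u} [CompleteBooleanAlgebra C]

theorem ext_top (hf : IsCh A f) {m : L} (hm : ∀ i, i ≤ m) {g : A m → C} (hg : IsCE g) :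
    IsTop A f (fun i a => g (f i m a)) :=
  ⟨fun i => (all_alg2 _ _ _ _ _ (hf.ce i m (hm i)) hg).1,
    fun i j hij a => by rw [hf.comp i j m hij (hm j)]⟩

theorem ext_tp (hf : IsCh A f) {m : L} (hm : ∀ i, i ≤ m) {g : A m → C} (hg : IsCE g)
    (h : TPat A f m) : TP A f (fun i a => g (f i m a)) := by
  intro i hi q hq
  have h1 := h i hi (fun n => hm (i n)) q hq
  have e1 : (⨅ n, g (f (i n) m (q n))) = g (⨅ n, f (i n) m (q n)) :=
    ((all_alg _ _ _ hg).2.2.2.2.2.2.2.2.1 _).symm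
  show prj (fun a => g (f (i 0) m a)) (⨅ n, g (f (i n) m (q n))) = q 0
  rw [e1, (all_alg2 _ _ _ _ _ (hf.ce _ _ (hm (i 0))) hg).2.1,
    (all_alg _ _ _ hg).2.2.2.2.2.2.2.2.2.2.2.1, h1]

end

/-! ### States of the recursion -/

/-- The states: an algebra and (untyped) maps from the previous algebras. -/
structure St7 (I : Type u) where
  A : Type u
  [inst : CompleteBooleanAlgebra A]
  mp : I → El.{u} → A

attribute [instance] St7.inst

noncomputable instance (I : Type u) : Inhabited (St7 I) :=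
  ⟨{ A := Set PUnit.{u + 1}, mp := fun _ _ => ⊥ }⟩

section

variable {I : Type u} [LinearOrder I]

/-- The map from the `i`-th to the `j`-th algebra. -/
def fm7 {L : Type u} (φ : L → I) (X : L → St7 I) (i j : L) (a : (X i).A) : (X j).A :=
  (X j).mp (φ i) ⟨(X i).A, a⟩

/-- The properties of stage `β`. -/
structure Ok7 (𝒯 : Set (List ℕ) → Prop) (β : I) (Z : Set.Iio β → St7 I) (Y : St7 I) : Prop where
  top : IsTop (fun i => (Z i).A) (fm7 Subtype.val Z) (fun i a => Y.mp i.1 ⟨(Z i).A, a⟩)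
  tp : TP (fun i => (Z i).A) (fm7 Subtype.val Z) (fun i a => Y.mp i.1 ⟨(Z i).A, a⟩)
  dp : Nonempty (Set.Iio β) → NoMaxOrder (Set.Iio β) →
    DP (fun i => (Z i).A) (fun i a => Y.mp i.1 ⟨(Z i).A, a⟩)
  id : ∀ a : Y.A, Y.mp β ⟨Y.A, a⟩ = a
  zero : IsEmpty (Set.Iio β) → (⊥ : Y.A) ≠ ⊤ ∧ ∀ a : Y.A, a = ⊥ ∨ a = ⊤
  succ : ∀ i : Set.Iio β, i.1 ⋖ β → ∃ φ : tC 𝒯 (Z i).A → Y.A, IsCE φ ∧ Function.Surjective φ ∧
    ∀ a, φ (tE 𝒯 (Z i).A a) = Y.mp i.1 ⟨(Z i).A, a⟩

/-- Stages which are ok form a chain with the thread property. -/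
theorem okg7 {𝒯 : Set (List ℕ) → Prop} {X : I → St7 I} {L : Type u} [LinearOrder L] {φ : L → I}
    (hφ : StrictMono φ) (hdc : ∀ l, ∀ i ≤ φ l, ∃ l', φ l' = i)
    (hok : ∀ l, Ok7 𝒯 (φ l) (fun i => X i.1) (X (φ l))) :
    IsCh (fun l => (X (φ l)).A) (fm7 φ fun l => X (φ l)) ∧
    (∀ j, TPat (fun l => (X (φ l)).A) (fm7 φ fun l => X (φ l)) j) ∧
    ∀ j, Order.IsSuccLimit j → DPat (fun l => (X (φ l)).A) (fm7 φ fun l => X (φ l)) j := by
  have hid : ∀ (j : L) (a : (X (φ j)).A), (X (φ j)).mp (φ j) ⟨(X (φ j)).A, a⟩ = a :=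
    fun j => (hok j).id
  have hfid : ∀ j, (fm7 φ (fun l => X (φ l)) j j) = fun a => a := fun j => funext (hid j)
  have hce : ∀ i j, i ≤ j → IsCE (fm7 φ (fun l => X (φ l)) i j) := by
    intro i j hij
    rcases hij.lt_or_eq with h | rfl
    · exact (hok j).top.ce ⟨φ i, hφ h⟩
    · rw [hfid]; exact H36.isCE_id
  have hcomp : ∀ i j k, i ≤ j → j ≤ k → ∀ a, fm7 φ (fun l => X (φ l)) j k
      (fm7 φ (fun l => X (φ l)) i j a) = fm7 φ (fun l => X (φ l)) i k a := by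
    intro i j k hij hjk a
    rcases hij.lt_or_eq with h | rfl
    · rcases hjk.lt_or_eq with h' | rfl
      · exact (hok k).top.comp ⟨φ i, hφ (h.trans h')⟩ ⟨φ j, hφ h'⟩ (hφ h).le a
      · rw [hfid]
    · rw [hfid]
  have hch : IsCh (fun l => (X (φ l)).A) (fm7 φ fun l => X (φ l)) := ⟨hce, hid, hcomp⟩
  refine ⟨hch, ?_, ?_⟩
  · intro j
    refine H36.tpat_of all_alg all_alg2 hch j fun i hi hij q hq => ?_
    exact (hok j).tp (fun n => ⟨φ (i n), hφ (hij n)⟩) (fun m n h => hφ.monotone (hi h)) q hq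
  · intro j hj
    have hne : Nonempty (Set.Iio (φ j)) := by
      have h1 := hj.1
      rw [not_isMin_iff] at h1
      obtain ⟨i, hi⟩ := h1
      exact ⟨⟨φ i, hφ hi⟩⟩
    have hnm : NoMaxOrder (Set.Iio (φ j)) := by
      refine ⟨fun x => ?_⟩
      obtain ⟨l, hl⟩ := hdc j x.1 (le_of_lt x.2)
      have hlj : l < j := hφ.lt_iff_lt.1 (hl ▸ x.2)
      have h1 := hj.2 l
      rw [not_covBy_iff hlj] at h1
      obtain ⟨l', h2, h3⟩ := h1
      exact ⟨⟨φ l', hφ h3⟩, (hl ▸ hφ h2 : x.1 < φ l')⟩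
    intro c hc
    obtain ⟨d, hdc', hd, s, hs, hsne, hds⟩ := (hok j).dp hne hnm c hc
    have hpre : ∀ x : Set.Iio (φ j), ∃ l, l < j ∧ φ l = x.1 := by
      intro x
      obtain ⟨l, hl⟩ := hdc j x.1 (le_of_lt x.2)
      exact ⟨l, hφ.lt_iff_lt.1 (hl ▸ x.2), hl⟩
    refine ⟨d, hdc', hd, φ ⁻¹' (Subtype.val '' s), ?_, ?_, ?_, ?_⟩
    · exact (hs.image _).preimage hφ.injective
    · obtain ⟨x, hx⟩ := hsne
      obtain ⟨l, _, hl⟩ := hpre x
      exact ⟨l, x, hx, hl.symm⟩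
    · rintro l ⟨x, _, hx⟩
      exact hφ.lt_iff_lt.1 (hx ▸ x.2)
    · refine hds.trans (le_antisymm ?_ ?_)
      · refine le_iInf₂ fun l hl => ?_
        obtain ⟨⟨x, hxj⟩, hx, hxl⟩ := hl
        simp only at hxl
        subst hxl
        exact iInf₂_le (⟨φ l, hxj⟩ : Set.Iio (φ j)) hx
      · refine le_iInf₂ fun x hx => ?_
        obtain ⟨l, hlj, hl⟩ := hpre x
        obtain ⟨x, hxj⟩ := x
        simp only at hl
        subst hl
        exact iInf₂_le l (⟨⟨φ l, hxj⟩, hx, rfl⟩ : l ∈ φ ⁻¹' (Subtype.val '' s))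

/-! ### The step -/

variable (β : I) (Z : Set.Iio β → St7 I) {C : Type u} [CompleteBooleanAlgebra C]
  (e : ∀ i, (Z i).A → C)

open Classical in
/-- The state given by an algebra on top of the previous ones. -/
noncomputable def mk7 : St7 I where
  A := C
  mp i x :=
    if h : i < β then
      (if hx : x.1 = (Z ⟨i, h⟩).A then e ⟨i, h⟩ (cast hx x.2) else ⊥)
    else (if hx : x.1 = C then cast hx x.2 else ⊥)

theorem mk7_lt (i : Set.Iio β) (a : (Z i).A) : (mk7 β Z e).mp i.1 ⟨(Z i).A, a⟩ = e i a := by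
  have h : i.1 < β := i.2
  exact (dif_pos h).trans ((dif_pos (rfl : (Z i).A = (Z i).A)).trans rfl)

theorem mk7_self (a : C) : (mk7 β Z e).mp β ⟨C, a⟩ = a := by
  exact (dif_neg (lt_irrefl β)).trans ((dif_pos (rfl : C = C)).trans rfl)

theorem mk7_ok {𝒯 : Set (List ℕ) → Prop}
    (h1 : IsTop (fun i => (Z i).A) (fm7 Subtype.val Z) e)
    (h2 : TP (fun i => (Z i).A) (fm7 Subtype.val Z) e)
    (h3 : Nonempty (Set.Iio β) → NoMaxOrder (Set.Iio β) → DP (fun i => (Z i).A) e)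
    (h4 : IsEmpty (Set.Iio β) → (⊥ : C) ≠ ⊤ ∧ ∀ a : C, a = ⊥ ∨ a = ⊤)
    (h5 : ∀ i : Set.Iio β, i.1 ⋖ β → ∃ φ : tC 𝒯 (Z i).A → C, IsCE φ ∧ Function.Surjective φ ∧
      ∀ a, φ (tE 𝒯 (Z i).A a) = e i a) : Ok7 𝒯 β Z (mk7 β Z e) := by
  have he : (fun (i : Set.Iio β) (a : (Z i).A) => (mk7 β Z e).mp i.1 ⟨(Z i).A, a⟩) = e := by
    funext i a
    exact mk7_lt β Z e i a
  refine ⟨?_, ?_, ?_, mk7_self β Z e, h4, ?_⟩
  · rw [he]; exact h1
  · rw [he]; exact h2
  · rw [he]; exact h3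
  · intro i hi
    obtain ⟨φ, a1, a2, a3⟩ := h5 i hi
    exact ⟨φ, a1, a2, fun a => (a3 a).trans (mk7_lt β Z e i a).symm⟩

end

theorem step7 {I : Type u} [LinearOrder I] {𝒯 : Set (List ℕ) → Prop} (hT : TFam 𝒯) (β : I)
    (X : I → St7 I) (hX : ∀ γ < β, Ok7 𝒯 γ (fun i => X i.1) (X γ)) :
    ∃ Y, Ok7 𝒯 β (fun i => X i.1) Y := by
  set Z : Set.Iio β → St7 I := fun i => X i.1 with hZ
  obtain ⟨hch, htp, -⟩ := okg7 (𝒯 := 𝒯) (X := X) (L := Set.Iio β) (φ := Subtype.val)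
    (fun _ _ h => h) (fun l i hi => ⟨⟨i, lt_of_le_of_lt hi l.2⟩, rfl⟩) (fun l => hX l.1 l.2)
  by_cases hne : Nonempty (Set.Iio β)
  · by_cases hm : ∃ m : Set.Iio β, ∀ i, i ≤ m
    · obtain ⟨m, hm⟩ := hm
      have hg := tE_ce hT (Z m).A
      refine ⟨mk7 β Z (fun i a => tE 𝒯 (Z m).A (fm7 Subtype.val Z i m a)),
        mk7_ok β Z _ (ext_top hch hm hg) (ext_tp hch hm hg (htp m)) ?_ ?_ ?_⟩
      · intro _ hnm
        obtain ⟨j, hj⟩ := hnm.exists_gt m
        exact absurd (hm j) (not_le.2 hj)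
      · intro hem
        exact (hem.false m).elim
      · intro i hi
        have him : i = m := by
          by_contra hne'
          exact hi.2 (lt_of_le_of_ne (hm i) hne' : i < m) m.2
        subst him
        refine ⟨fun x => x, H36.isCE_id, fun x => ⟨x, rfl⟩, fun a => ?_⟩
        have h1 : fm7 Subtype.val Z i i a = a := hch.id i a
        rw [h1]
    · have hnm : NoMaxOrder (Set.Iio β) := by
        refine ⟨fun a => ?_⟩
        by_contra hc
        push Not at hc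
        exact hm ⟨a, hc⟩
      obtain ⟨-, b1, b2, b3⟩ := all_limc (Set.Iio β) (fun l => (Z l).A) (fm7 Subtype.val Z) hch htp
      refine ⟨mk7 β Z (fun i a => thE i a), mk7_ok β Z _ b1 b2 (fun _ _ => b3) ?_ ?_⟩
      · intro hem
        exact absurd hne (not_nonempty_iff.2 hem)
      · intro i hi
        obtain ⟨j, hj⟩ := hnm.exists_gt i
        exact absurd j.2 (hi.2 (hj : i.1 < j.1))
  · have hemp : IsEmpty (Set.Iio β) := not_nonempty_iff.1 hne
    refine ⟨mk7 β Z (C := Set PUnit.{u + 1}) (fun i => isEmptyElim i), mk7_ok β Z _ ?_ ?_ ?_ ?_ ?_⟩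
    · exact ⟨fun i => isEmptyElim i, fun i => isEmptyElim i⟩
    · intro i
      exact (hemp.false (i 0)).elim
    · intro h
      exact absurd h hne
    · intro _
      refine ⟨?_, fun a => ?_⟩
      · intro h
        have : (PUnit.unit : PUnit.{u + 1}) ∈ (⊥ : Set PUnit.{u + 1}) := by
          rw [h]
          trivial
        exact this
      · by_cases h : PUnit.unit ∈ a
        · right
          ext x
          cases x
          simp [h]
        · left
          ext x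
          cases x
          simp [h]
    · intro i
      exact isEmptyElim i

theorem exi : ExiStatement.{u} := by
  classical
  intro 𝒯 hT I _ _ _
  obtain ⟨X, hX⟩ := all_rec.{u, u + 1} I (St7 I)
    (fun β X => Ok7 𝒯 β (fun i => X i.1) (X β)) (by
      intro β X X' h hX
      have h1 : (fun i : Set.Iio β => X i.1) = fun i : Set.Iio β => X' i.1 := by
        funext i
        exact h i.1 i.2.le
      rw [← h1, ← h β le_rfl]
      exact hX) (by
      intro β X hX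
      obtain ⟨Y, hY⟩ := step7 hT β X hX
      refine ⟨Y, ?_⟩
      have h1 : (fun i : Set.Iio β => Function.update X β Y i.1) = fun i : Set.Iio β => X i.1 := by
        funext i
        exact Function.update_of_ne (ne_of_lt i.2) _ _
      have h2 : Function.update X β Y β = Y := Function.update_self _ _ _
      rw [h1, h2]
      exact hY)
  obtain ⟨hch, htp, hdp⟩ := okg7 (𝒯 := 𝒯) (X := X) (L := I) (φ := fun i => i)
    (fun _ _ h => h) (fun _ i _ => ⟨i, rfl⟩) hX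
  obtain ⟨-, b1, b2, b3⟩ := all_limc I (fun l => (X l).A) (fm7 (fun i => i) X) hch htp
  refine ⟨fun i => (X i).A, fun i => inferInstance, fm7 (fun i => i) X, _, inferInstance,
    fun i a => thE i a, ⟨hch, ?_, ?_, fun j _ => htp j, hdp, b1, b2, b3⟩⟩
  · intro i hi
    exact (hX i).zero ⟨fun j => absurd j.2 (not_lt.2 (hi j.1))⟩
  · intro i j hij
    exact (hX j).succ ⟨i, hij.1⟩ hij

end Pool.Agent.Lib.MP_a78e1f_lc.H57
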