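import Pool.Agent.Lib.MP_a78e1f_lc.U.Iface

/-!
# Module IND: preserved properties in countable support iterations
-/

set_option autoImplicit false

universe u v w

open Cardinal Filter MeasureTheory

namespace Pool.Agent.Lib.MP_a78e1f_lc.H57

open Pool.Agent.Lib.MP_100a6c_lc
open Pool.Agent.Lib.MP_c5d73d_lc.F (pr)
open Pool.Agent.Lib.MP_e6fef2_lc

/-- a point of a well-order is minimal, a successor or a limit -/
theorem tri {I : Type u} [LinearOrder I] (j : I) :
    (∀ i, j ≤ i) ∨ (∃ i, i ⋖ j) ∨ Order.IsSuccLimit j := by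
  by_cases h1 : ∃ i, i ⋖ j
  · exact Or.inr (Or.inl h1)
  · by_cases h2 : IsMin j
    · refine Or.inl fun i => ?_
      rcases le_total j i with h | h
      · exact h
      · exact h2 h
    · refine Or.inr (Or.inr ⟨h2, fun i hi => h1 ⟨i, hi⟩⟩)

section

variable {L : Type u} [LinearOrder L] {A : L → Type u} [∀ i, CompleteBooleanAlgebra (A i)]
  {f : ∀ i j, A i → A j}

/-- the thread property passes to successors -/
theorem tpat_succ (hf : IsCh A f) {i0 j : L} (hij : i0 ⋖ j) (h : TPat A f i0) : TPat A f j := by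
  refine H36.tpat_of all_alg all_alg2 hf j fun i hi hlt q hq => ?_
  have hle : ∀ n, i n ≤ i0 := fun n => by
    by_contra hc
    push Not at hc
    exact hij.2 hc (hlt n)
  have h1 := h i hi hle q hq
  have hce := hf.ce _ _ hij.1.le
  have hce0 := hf.ce _ _ (hle 0)
  have e1 : (⨅ n, f (i n) j (q n)) = f i0 j (⨅ n, f (i n) i0 (q n)) := by
    rw [(all_alg _ _ _ hce).2.2.2.2.2.2.2.2.1]
    refine iInf_congr fun n => ?_
    rw [hf.comp _ _ _ (hle n) hij.1.le]
  have e2 : f (i 0) j = fun a => f i0 j (f (i 0) i0 a) := by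
    funext a
    rw [hf.comp _ _ _ (hle 0) hij.1.le]
  rw [e1, e2, (all_alg2 _ _ _ _ _ hce0 hce).2.1,
    (all_alg _ _ _ hce).2.2.2.2.2.2.2.2.2.2.2.1, h1]

/-- the chain below `j` -/
theorem ch_iio (hf : IsCh A f) (j : L) :
    IsCh (fun i : Set.Iio j => A i.1) (fun i k => f i.1 k.1) :=
  ⟨fun i k h => hf.ce i.1 k.1 h, fun i a => hf.id i.1 a,
    fun i k l h h' a => hf.comp i.1 k.1 l.1 h h' a⟩

theorem top_iio (hf : IsCh A f) (j : L) :
    IsTop (fun i : Set.Iio j => A i.1) (fun i k => f i.1 k.1) (C := A j) (fun i => f i.1 j) :=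
  ⟨fun i => hf.ce i.1 j i.2.le, fun i k h a => hf.comp i.1 k.1 j h k.2.le a⟩

theorem tp_iio {j : L} (h : TPat A f j) :
    TP (fun i : Set.Iio j => A i.1) (fun i k => f i.1 k.1) (C := A j) (fun i => f i.1 j) := by
  intro i hi q hq
  exact h (fun n => (i n).1) (fun m n hmn => hi hmn) (fun n => (i n).2.le) q hq

theorem dp_iio {j : L} (h : DPat A f j) :
    DP (fun i : Set.Iio j => A i.1) (C := A j) (fun i => f i.1 j) := by
  intro c hc
  obtain ⟨d, hdc, hd, s, hs, hsne, hlt, hds⟩ := h c hc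
  refine ⟨d, hdc, hd, Subtype.val ⁻¹' s, hs.preimage Subtype.val_injective, ?_, ?_⟩
  · obtain ⟨i, hi⟩ := hsne
    exact ⟨⟨i, hlt i hi⟩, hi⟩
  · refine hds.trans (le_antisymm ?_ ?_)
    · refine le_iInf₂ fun i hi => ?_
      exact iInf₂_le i.1 hi
    · refine le_iInf₂ fun i hi => ?_
      exact iInf₂_le (⟨i, hlt i hi⟩ : Set.Iio j) hi

end

section

variable {A B C : Type u} [CompleteBooleanAlgebra A] [CompleteBooleanAlgebra B]
  [CompleteBooleanAlgebra C]

/-- cancellation of a complete embedding -/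
theorem ce_cancel {g : A → B} {φ : B → C} {h : A → C} (hφ : IsCE φ) (hh : IsCE h)
    (e : ∀ a, φ (g a) = h a) : IsCE g := by
  refine ⟨fun a b hab => hh.inj (by rw [← e, ← e, hab]), fun a => hφ.inj ?_, fun s => hφ.inj ?_⟩
  · rw [e, hh.compl, hφ.compl, e]
  · rw [e, hh.sSup]
    have h1 : (⨆ a ∈ s, g a) = sSup (g '' s) := by rw [sSup_image]
    rw [h1, hφ.sSup]
    refine le_antisymm ?_ ?_
    · refine iSup₂_le fun a ha => ?_
      rw [← e]
      exact le_iSup₂_of_le (g a) ⟨a, ha, rfl⟩ le_rfl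
    · refine iSup₂_le fun b hb => ?_
      obtain ⟨a, ha, rfl⟩ := hb
      rw [e]
      exact le_iSup₂_of_le a ha le_rfl

/-- `gen` of the two-element algebra -/
theorem gen_two (h0 : (⊥ : A) ≠ ⊤) (h : ∀ a : A, a = ⊥ ∨ a = ⊤) :
    ∀ᶠ N in club.{u}, gen A N = ⊤ := by
  filter_upwards [all_club.2.2.2.1 A ⊤] with N hN
  rw [eq_top_iff]
  refine le_iInf₂ fun D _ => le_iInf fun hs => ?_
  have hD : (⊤ : A) ∈ D := by
    by_contra hc
    apply h0
    rw [← hs, eq_comm, sSup_eq_bot]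
    intro d hd
    rcases h d with h1 | h1
    · exact h1
    · exact absurd (h1 ▸ hd) hc
  exact le_iSup_of_le ⊤ (le_iSup_of_le hD (le_iSup_of_le hN le_rfl))

/-- a proper extension of the two-element algebra is proper -/
theorem prp_of {g : A → B} (hg : IsCE g) (hpe : PE g) (h0 : (⊥ : A) ≠ ⊤)
    (h : ∀ a : A, a = ⊥ ∨ a = ⊤) : Prp B := by
  filter_upwards [gen_two h0 h, hpe] with N h1 h2 c hc hne hbot
  have h3 := h2 c hc
  have h4 := (all_alg _ _ _ hg).2.2.2.2.2.2.2.2.2.2.2.2.2.2.2.2.2.1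
  have h5 : prj g c = ⊤ := by
    rcases h (prj g c) with h6 | h6
    · exact absurd ((h4 c).1 h6) hne
    · exact h6
  rw [h1, h5, hbot, (h4 ⊥).2 rfl, top_inf_eq] at h3
  exact h0 (le_antisymm bot_le h3)

end

theorem ind : IndStatement.{u} := by
  intro Φ hΦ 𝒯 _ ht I _ _ _ A _ f B _ e hC
  have hf := hC.ch
  -- threads
  have hTP : ∀ j, TPat A f j := by
    intro j
    induction j using WellFoundedLT.induction with
    | _ j ih =>
      rcases tri j with h | ⟨i, hi⟩ | h
      · refine H36.tpat_of all_alg all_alg2 hf j fun i _ hlt _ _ => ?_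
        exact absurd (h (i 0)) (not_le.2 (hlt 0))
      · exact tpat_succ hf hi (ih i hi.1)
      · exact hC.tp j h
  have hid : ∀ i, Φ (A i) (A i) (f i i) := fun i =>
    hΦ.iso _ _ _ (hf.ce i i le_rfl) fun a => ⟨a, hf.id i a⟩
  have hP : ∀ j i, i ≤ j → Φ (A i) (A j) (f i j) := by
    intro j
    induction j using WellFoundedLT.induction with
    | _ j ih =>
      intro i hij
      rcases hij.eq_or_lt with rfl | hlt
      · exact hid i
      · rcases tri j with h | ⟨i0, hi0⟩ | h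
        · exact absurd (h i) (not_le.2 hlt)
        · have hle : i ≤ i0 := by
            by_contra hc
            push Not at hc
            exact hi0.2 hc hlt
          obtain ⟨φ, hφ, hsur, hφe⟩ := hC.succ i0 j hi0
          have hce := hf.ce _ _ hi0.1.le
          have htE : IsCE (tE 𝒯 (A i0)) := ce_cancel hφ hce hφe
          have h1 : Φ (A i0) (A j) (f i0 j) := by
            have h2 := hΦ.comp _ _ _ _ _ htE hφ (ht (A i0)) (hΦ.iso _ _ _ hφ hsur)
            have h3 : (fun a => φ (tE 𝒯 (A i0) a)) = f i0 j := funext hφe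
            rw [h3] at h2
            exact h2
          have h4 := hΦ.comp _ _ _ _ _ (hf.ce _ _ hle) hce (ih i0 hi0.1 i hle) h1
          have h5 : (fun a => f i0 j (f i i0 a)) = f i j :=
            funext fun a => hf.comp _ _ _ hle hi0.1.le a
          rw [h5] at h4
          exact h4
        · exact hΦ.lim (Set.Iio j) (fun k => A k.1) (fun k l => f k.1 l.1) (A j)
            (fun k => f k.1 j) (ch_iio hf j) (top_iio hf j) (tp_iio (hTP j))
            (dp_iio (hC.dp j h)) (fun k l hkl => ih l.1 l.2 k.1 hkl) ⟨i, hlt⟩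
  have hE : ∀ i, Φ (A i) B (e i) :=
    hΦ.lim I A f B e hf hC.top hC.ttp hC.tdp fun i j hij => hP j i hij
  obtain ⟨i0, hi0⟩ : ∃ i0 : I, ∀ j, i0 ≤ j := by
    refine ⟨wellFounded_lt.min Set.univ Set.univ_nonempty, fun j => ?_⟩
    exact not_lt.1 (wellFounded_lt.not_lt_min Set.univ (Set.mem_univ j))
  obtain ⟨h0, h01⟩ := hC.zero i0 hi0
  refine ⟨fun i j hij => hP j i hij, hE, hTP, fun i => ?_, ?_, ?_⟩
  · exact prp_of (hf.ce i0 i (hi0 i)) (hΦ.pe _ _ _ (hf.ce i0 i (hi0 i)) (hP i i0 (hi0 i))) h0 h01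
  · exact prp_of (hC.top.ce i0) (hΦ.pe _ _ _ (hC.top.ce i0) (hE i0)) h0 h01
  · intro hb
    have hA := all_alg _ _ _ (hC.top.ce i0)
    apply h0
    apply (hC.top.ce i0).inj
    rw [hA.1, hA.2.1, hb]

end Pool.Agent.Lib.MP_a78e1f_lc.H57
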