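import Pool.Agent.Lib.MP_a78e1f_lc.H57.Exi

/-!
# Module DMT: a small dense set of the extension by a tree forcing
-/

set_option autoImplicit false

universe u v w

open Cardinal Filter MeasureTheory

namespace Pool.Agent.Lib.MP_a78e1f_lc.H57

open Pool.Agent.Lib.MP_100a6c_lc
open Pool.Agent.Lib.MP_c5d73d_lc.F (pr)
open Pool.Agent.Lib.MP_e6fef2_lc
open Pool.Agent.Lib.MP_6d445e_gt (Idw Ult ae IsMil)

/-! ### The regular open algebra of a point -/

theorem ro_one (b : H1.RO PUnit.{u + 1}) : b = ⊥ ∨ b = ⊤ := by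
  by_cases h : pr PUnit.unit ≤ b
  · refine Or.inr (top_le_iff.1 ((H1.ro_le ⊤ b).2 fun p _ => ?_))
    cases p
    exact h
  · refine Or.inl ((H1.ro_bot b).2 fun p => ?_)
    cases p
    exact h

theorem pr_one : (pr PUnit.unit : H1.RO PUnit.{u + 1}) = ⊤ := by
  refine top_le_iff.1 ((H1.ro_le ⊤ _).2 fun p _ => ?_)
  cases p
  exact le_rfl

theorem ro_one_ne : (⊥ : H1.RO PUnit.{u + 1}) ≠ ⊤ := fun h =>
  (H1.ro_bot (⊤ : H1.RO PUnit.{u + 1})).1 h.symm PUnit.unit le_top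

open Classical in
/-- The embedding of the regular open algebra of a point. -/
noncomputable def io (A : Type u) [CompleteBooleanAlgebra A] (b : H1.RO PUnit.{u + 1}) : A :=
  if b = ⊤ then ⊤ else ⊥

section

variable {A : Type u} [CompleteBooleanAlgebra A]

theorem io_top : io A ⊤ = ⊤ := if_pos rfl

theorem io_bot : io A ⊥ = ⊥ := if_neg ro_one_ne

theorem io_pr : io A (pr PUnit.unit) = ⊤ := by
  rw [pr_one]
  exact io_top

theorem io_ce (h : (⊥ : A) ≠ ⊤) : IsCE (io A) := by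
  refine ⟨fun a b hab => ?_, fun a => ?_, fun s => ?_⟩
  · rcases ro_one a with ha | ha <;> rcases ro_one b with hb | hb
    · rw [ha, hb]
    · rw [ha, hb, io_bot, io_top] at hab
      exact absurd hab h
    · rw [ha, hb, io_bot, io_top] at hab
      exact absurd hab.symm h
    · rw [ha, hb]
  · rcases ro_one a with ha | ha
    · rw [ha, compl_bot, io_top, io_bot, compl_bot]
    · rw [ha, compl_top, io_top, io_bot, compl_top]
  · by_cases hs : (⊤ : H1.RO PUnit.{u + 1}) ∈ s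
    · have e1 : sSup s = ⊤ := top_le_iff.1 (le_sSup hs)
      rw [e1, io_top]
      refine le_antisymm ?_ le_top
      have := le_iSup₂ (f := fun a (_ : a ∈ s) => io A a) ⊤ hs
      rw [io_top] at this
      exact this
    · have e1 : ∀ a ∈ s, a = ⊥ := fun a ha => by
        rcases ro_one a with h1 | h1
        · exact h1
        · rw [h1] at ha
          exact absurd ha hs
      have e2 : sSup s = ⊥ := sSup_eq_bot.2 e1
      rw [e2, io_bot]
      symm
      refine le_bot_iff.1 (iSup₂_le fun a ha => ?_)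
      rw [e1 a ha, io_bot]

/-- Properness: the elements of a countable model are traces of elements of `M`. -/
theorem tr_mem (h : (⊥ : A) ≠ ⊤) {M : Set A} (hM : SigC M)
    (hd : ∀ a : A, a ≠ ⊥ → ∃ m ∈ M, m ≠ ⊥ ∧ m ≤ a) :
    ∀ᶠ N in club, ∀ z : A, In N z → gen A N ⊓ z ∈ M := by
  have hdm : DM (io A) M := fun a ha => by
    obtain ⟨m, hm, hm0, hma⟩ := hd a ha
    refine ⟨PUnit.unit, m, hm, ?_, ?_⟩
    · rw [io_pr, top_inf_eq]
      exact hm0
    · rw [io_pr, top_inf_eq]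
      exact hma
  have h1 := all_rdl PUnit.{u + 1} A (io A) M (io_ce h) hdm hM
  have h2 := all_club.2.2.2.1 PUnit.{u + 1} PUnit.unit
  filter_upwards [h1, h2] with N h1 h2 z hz
  have hsg : SG N PUnit.unit.{u + 1} := fun D _ hD => by
    obtain ⟨q, -, hq⟩ := hD PUnit.unit
    exact ⟨q, hq, by cases q; exact h2, by cases q; exact le_rfl⟩
  obtain ⟨x, hx, hxe⟩ := h1 PUnit.unit hsg z hz
  rw [io_pr, top_inf_eq, top_inf_eq] at hxe
  rw [hxe]
  exact hx

/-- A name of a fixed tree. -/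
theorem tx_fix {𝒯 : Set (List ℕ) → Prop} (h : TFam 𝒯) (A : Type u) [CompleteBooleanAlgebra A] :
    ∃ τ : TX 𝒯 A, ∀ t, τ.1 t = ⊤ ∨ τ.1 t = ⊥ := by
  classical
  obtain ⟨T, hT⟩ := h.ne
  refine ⟨⟨fun t => if t ∈ T then ⊤ else ⊥, Filter.Eventually.of_forall fun g => ?_⟩, fun t => ?_⟩
  · have h1 : {t : List ℕ | (if t ∈ T then (⊤ : A) else ⊥) ∈ g} = T := by
      ext t
      show (if t ∈ T then (⊤ : A) else ⊥) ∈ g ↔ t ∈ T
      by_cases ht : t ∈ T
      · rw [if_pos ht]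
        exact ⟨fun _ => ht, fun _ => g.mem_top⟩
      · rw [if_neg ht]
        exact ⟨fun h => absurd h g.not_bot, fun h => absurd h ht⟩
    have h2 : 𝒯 {t : List ℕ | (if t ∈ T then (⊤ : A) else ⊥) ∈ g} := by
      rw [h1]
      exact hT
    exact h2
  · by_cases ht : t ∈ T
    · exact Or.inl (if_pos ht)
    · exact Or.inr (if_neg ht)

theorem sig_inf {M : Set A} (hM : SigC M) {a b : A} (ha : a ∈ M) (hb : b ∈ M) : a ⊓ b ∈ M := by
  have := H42.SigC.iInf_mem hM (fun i : Bool => if i then a else b) (fun i => by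
    cases i <;> simp [ha, hb])
  rw [iInf_bool_eq] at this
  simpa using this

theorem sig_sup {M : Set A} (hM : SigC M) {a b : A} (ha : a ∈ M) (hb : b ∈ M) : a ⊔ b ∈ M := by
  have := H42.SigC.iSup_mem hM (fun i : Bool => if i then a else b) (fun i => by
    cases i <;> simp [ha, hb])
  rw [iSup_bool_eq] at this
  simpa using this

end

theorem dmt (_ : GndStatement.{u}) (hgmx : GmxStatement.{u}) (_ : FamStatement) :
    DmtStatement.{u} := by
  intro 𝒯 hT A _ hprp M hM hMd M' _ h2 c hc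
  obtain ⟨-, hd, hp, hmix, hag, -⟩ := hgmx 𝒯 hT A
  obtain ⟨b, τ, hb, hbc⟩ := hd c hc
  have hbt : (⊥ : A) ≠ ⊤ := fun h => hb (le_bot_iff.1 (by rw [h]; exact le_top))
  obtain ⟨e, he⟩ := exists_surjective_nat (List ℕ)
  have ev1 := tr_mem hbt hM hMd
  have ev2 := all_club.2.2.2.1 A b
  have ev3 := all_club.2.2.1 (fun n N => In N (τ.1 (e n))) fun n => all_club.2.2.2.1 A (τ.1 (e n))
  obtain ⟨N, -, -, hN1, hN2, hN3, hN4⟩ := all_club.1 _
    (ev1.and (ev2.and (ev3.and hprp))) ∅ Set.countable_empty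
  have hne := hN4 b hN2 hb
  obtain ⟨m, hm, hm0, hmb⟩ := hMd _ hne
  obtain ⟨τ0, hτ0⟩ := tx_fix hT A
  have hx : ∀ t, gen A N ⊓ τ.1 t ∈ M := fun t => by
    obtain ⟨n, rfl⟩ := he t
    exact hN1 _ (hN3 n)
  obtain ⟨τ', hτ'⟩ := hmix (ULift.{u} Bool) (fun i => if i.down then m else mᶜ)
    (fun i => if i.down then τ else τ0) (by
      rintro ⟨i⟩ ⟨j⟩ hij
      cases i <;> cases j <;> simp at hij ⊢)
  have ht1 : ∀ s, m ⊓ τ'.1 s = m ⊓ τ.1 s := fun s => by simpa using hτ' ⟨true⟩ s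
  have ht2 : ∀ s, mᶜ ⊓ τ'.1 s = mᶜ ⊓ τ0.1 s := fun s => by simpa using hτ' ⟨false⟩ s
  have hval : ∀ s, τ'.1 s ∈ M := fun s => by
    have e1 : τ'.1 s = (m ⊓ (gen A N ⊓ τ.1 s)) ⊔ (mᶜ ⊓ τ0.1 s) := by
      have e2 : m ⊓ (gen A N ⊓ τ.1 s) = m ⊓ τ.1 s := by
        rw [← inf_assoc, inf_eq_left.2 (hmb.trans inf_le_left)]
      rw [e2, ← ht1 s, ← ht2 s, ← inf_sup_right, sup_compl_eq_top, top_inf_eq]
    rw [e1]
    refine sig_sup hM (sig_inf hM hm (hx s)) (sig_inf hM (hM.compl m hm) ?_)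
    rcases hτ0 s with h | h
    · rw [h]
      exact hM.top
    · rw [h]
      exact H42.SigC.bot hM
  have heq := hag τ τ' m ht1
  have hce := tE_ce hT A
  obtain ⟨-, -, -, -, hle, -, -, -, -, -, -, -, -, -, -, -, hpi, hpb, -⟩ :=
    all_alg A (tC 𝒯 A) (tE 𝒯 A) hce
  refine ⟨tE 𝒯 A m ⊓ tG τ', h2 m hm τ' hval, ?_, ?_⟩
  · intro h0
    have h3 := hpi (tG τ') m
    have h4 : prj (tE 𝒯 A) (tG τ') = ⊤ := hp τ'
    have h5 : prj (tE 𝒯 A) (tG τ' ⊓ tE 𝒯 A m) = ⊥ := (hpb _).2 ((inf_comm _ _).trans h0)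
    rw [h4, top_inf_eq] at h3
    exact hm0 (h3.symm.trans h5)
  · rw [heq]
    exact (inf_le_inf_right _ ((hle m b).2 (hmb.trans inf_le_right))).trans hbc

end Pool.Agent.Lib.MP_a78e1f_lc.H57
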