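import Pool.Agent.Lib.MP_a78e1f_lc.H57.Prlimf
import Pool.Agent.Lib.MP_a78e1f_lc.H57.Exi

/-!
# Module PRSAC: Sacks forcing preserves captured slaloms
-/

set_option autoImplicit false

universe u v w

open Cardinal Filter MeasureTheory

namespace Pool.Agent.Lib.MP_a78e1f_lc.H57

open Pool.Agent.Lib.MP_100a6c_lc
open Pool.Agent.Lib.MP_c5d73d_lc.F (pr)
open Pool.Agent.Lib.MP_e6fef2_lc
open Pool.Agent.Lib.MP_e6fef2_lc.H57
open Pool.Agent.Lib.MP_6d445e_gt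
open Pool.Agent.Lib.MP_6d445e_gt.H22 (inj_count ae_gen)
open Pool.Agent.Lib.MP_e6fef2_lc.H15 (ev_countable ev_const ev_normal ev_fun ev_fun2 ev_sets ev_all)

section

variable {A C : Type u} [CompleteBooleanAlgebra A] [CompleteBooleanAlgebra C]

theorem sl_uni' (hITP : ItpfStatement.{u}) {F F' : ℕ → ℕ → A} (hF : IsFN F) (hF' : IsFN F')
    {j : ℕ} {a : A} (h : SlF j a F) (h' : SlF j a F') (k : ℕ) : SlF (j + 1) a (uniF F F' k) := by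
  obtain ⟨-, -, -, -, -, -, -, -, -, -, i11, -⟩ := hITP A A (fun a : A => a) ce_id
  unfold SlF at h h' ⊢
  filter_upwards [h, h', (i11 F F' k hF hF').2] with g h h' hu ha p
  have h1 := h ha p
  have h2 := h' ha p
  rw [hu p]
  have h5 : (p + 2) ^ (j + 1) = (p + 2) ^ j * (p + 2) := pow_succ _ _
  have h6 : (p + 2) ^ j * 2 ≤ (p + 2) ^ j * (p + 2) := Nat.mul_le_mul_left _ (by omega)
  split_ifs
  · have h7 := Finset.card_union_le (dS (fv F g p)) (dS (fv F' g p))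
    omega
  · omega

/-- The facts on Sacks forcing, for the abstract extension. -/
structure SX (E : A → C) (G : TX IsSac A → C) (Nd : List ℕ → C) : Prop where
  ce : IsCE E
  nil : Nd [] = ⊤
  dis : ∀ t t', ¬ Cmp t t' → Nd t ⊓ Nd t' = ⊥
  bot : ∀ t, (∀ T, IsSac T → t ∉ T) → Nd t = ⊥
  nod : ∀ (τ : TX IsSac A) t, prj E (G τ ⊓ Nd t) = τ.1 t
  dns : ∀ c : C, c ≠ ⊥ → ∃ (b : A) (τ : TX IsSac A), b ≠ ⊥ ∧ E b ⊓ G τ ≤ c
  top : ∀ τ : TX IsSac A, prj E (G τ) = ⊤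
  tr : ∀ (X : Type u) [Countable X] (nd : X → List ℕ) (gd : X → A) (ed : X → X → X → A),
    PHyp2 nd gd ed → ∀ s0 a, a ≤ gd s0 → ∃ (P : List Bool → X → A) (τ : TX IsSac A),
    (∀ᶠ g in ae A, a ∈ g → P [] s0 ∈ g ∧ (∀ ρ, ∃! s, P ρ s ∈ g) ∧
      ∀ ρ s s' s'', P ρ s ∈ g → P (ρ ++ [false]) s' ∈ g → P (ρ ++ [true]) s'' ∈ g →
        ed s s' s'' ∈ g) ∧
    (∀ᶠ h in ae C, E a ⊓ G τ ∈ h → ∀ g : Ult A, (∀ b, b ∈ g ↔ E b ∈ h) →
      ∃ β : Cs, ∀ n s, P (res β n) s ∈ g → Nd (nd s) ∈ h) ∧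
    ∀ σ : TX IsSac A, ∀ᶠ h in ae C, E a ⊓ G τ ∈ h →
      ∀ g : Ult A, (∀ b, b ∈ g ↔ E b ∈ h) → ∀ ρ s, P ρ s ∈ g → Nd (nd s) ∈ h →
        (∀ ρ' s', ρ <+: ρ' → P ρ' s' ∈ g → σ.1 (nd s') ∈ g) → G σ ∈ h

variable {E : A → C} {G : TX IsSac A → C} {Nd : List ℕ → C}

theorem SX.mem (H : SX E G Nd) (b : A) (τ : TX IsSac A) : prj E (E b ⊓ G τ) = b := by
  rw [prj_inf' H.ce, H.top, inf_top_eq]

theorem SX.nd (H : SX E G Nd) (b : A) (τ : TX IsSac A) (t : List ℕ) :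
    prj E (E b ⊓ G τ ⊓ Nd t) = b ⊓ τ.1 t := by
  rw [inf_assoc, prj_inf' H.ce, H.nod]

theorem SX.dens (H : SX E G Nd) (c : C) :
    prj E c ≤ ⨆ p : {p : A × TX IsSac A // E p.1 ⊓ G p.2 ≤ c}, p.1.1 := by
  obtain ⟨s, hs⟩ : ∃ s, s = ⨆ p : {p : A × TX IsSac A // E p.1 ⊓ G p.2 ≤ c}, p.1.1 := ⟨_, rfl⟩
  rw [← hs]
  by_contra hcon
  have h1 : prj E c ⊓ sᶜ ≠ ⊥ := by
    intro h2
    apply hcon
    rw [← compl_compl s, le_compl_iff_disjoint_right, disjoint_iff]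
    exact h2
  have h3 : c ⊓ E sᶜ ≠ ⊥ := by
    intro h4
    apply h1
    rw [← prj_inf H.ce, h4, prj_bot H.ce]
  obtain ⟨b, τ, hb, hbc⟩ := H.dns _ h3
  have h5 : b ≤ s := by
    rw [hs]
    exact le_iSup (fun p : {p : A × TX IsSac A // E p.1 ⊓ G p.2 ≤ c} => p.1.1)
      ⟨(b, τ), hbc.trans inf_le_left⟩
  have h6 : b ≤ sᶜ := by
    rw [← H.mem b τ, prj_le H.ce]
    exact hbc.trans inf_le_right
  refine hb (le_bot_iff.1 ?_)
  rw [← inf_compl_eq_bot (a := s)]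
  exact le_inf h5 h6

/-- The conditions below elements of `D`. -/
def Dr (E : A → C) (G : TX IsSac A → C) (D : Set C) : Set C :=
  {x | ∃ (b : A) (σ : TX IsSac A) (d : C), x = E b ⊓ G σ ∧ d ∈ D ∧ x ≤ d}

theorem SX.sSup_Dr (H : SX E G Nd) {D : Set C} (hD : sSup D = ⊤) : sSup (Dr E G D) = ⊤ := by
  by_contra hcon
  have h1 : (sSup (Dr E G D))ᶜ ≠ ⊥ := fun h2 => hcon (compl_eq_bot.1 h2)
  have h3 : ∃ d ∈ D, (sSup (Dr E G D))ᶜ ⊓ d ≠ ⊥ := by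
    by_contra h4
    push Not at h4
    apply h1
    rw [← inf_top_eq (sSup (Dr E G D))ᶜ, ← hD, inf_sSup_eq]
    simp only [iSup_eq_bot]
    exact h4
  obtain ⟨d, hd, h5⟩ := h3
  obtain ⟨b, τ, hb, hbc⟩ := H.dns _ h5
  have h6 : E b ⊓ G τ ≤ sSup (Dr E G D) :=
    le_sSup ⟨b, τ, d, rfl, hd, hbc.trans inf_le_right⟩
  have h7 : E b ⊓ G τ ≤ ⊥ := by
    rw [← inf_compl_eq_bot (a := sSup (Dr E G D))]
    exact le_inf h6 (hbc.trans inf_le_left)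
  apply hb
  rw [← H.mem b τ, le_bot_iff.1 h7, prj_bot H.ce]

theorem sac_long {T : Set (List ℕ)} (hT : IsSac T) (n : ℕ) : ∃ s ∈ T, n ≤ s.length := by
  induction n with
  | zero => exact ⟨[], hT.nil, Nat.zero_le _⟩
  | succ n ih =>
    obtain ⟨s, hs, hn⟩ := ih
    obtain ⟨t', h1, h2, -⟩ := hT.spl s hs
    refine ⟨_, h2, ?_⟩
    have := h1.length_le
    rw [List.length_append, List.length_singleton]
    omega

theorem sac_split {T : Set (List ℕ)} (hT : IsSac T) {t : List ℕ} (h : ∀ s ∈ T, Cmp s t) :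
    ∃ t', t <+: t' ∧ t' ++ [0] ∈ T ∧ t' ++ [1] ∈ T := by
  obtain ⟨s, hs, hn⟩ := sac_long hT t.length
  have h1 : t ∈ T := by
    rcases h s hs with h2 | h2
    · rw [← h2.eq_of_length_le hn]
      exact hs
    · exact hT.pre _ _ h2 hs
  exact hT.spl t h1

theorem not_cmp (t : List ℕ) : ¬ Cmp (t ++ [0]) (t ++ [1]) := by
  rintro (h | h)
  · have := h.eq_of_length (by simp)
    simp at this
  · have := h.eq_of_length (by simp)
    simp at this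

/-- Pairs of incomparable extensions of `t`. -/
abbrev Pr2 (t : List ℕ) : Type := {u : List ℕ × List ℕ // t <+: u.1 ∧ t <+: u.2 ∧ ¬ Cmp u.1 u.2}

theorem SX.split (H : SX E G Nd) {c : C} {t : List ℕ} (hc : c ≤ Nd t) :
    prj E c ≤ ⨆ u : Pr2 t, prj E (c ⊓ Nd u.1.1) ⊓ prj E (c ⊓ Nd u.1.2) := by
  refine (H.dens c).trans (iSup_le fun p => le_of_ae ?_)
  obtain ⟨⟨b, τ⟩, hp⟩ := p
  dsimp only at hp ⊢
  have h1 : ∀ s, b ⊓ τ.1 s ≤ prj E (c ⊓ Nd s) := fun s => by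
    rw [← H.nd]
    exact prj_mono H.ce (inf_le_inf_right _ hp)
  filter_upwards [τ.2] with g hg hb
  have h2 : ∀ s ∈ {t | τ.1 t ∈ g}, Cmp s t := by
    intro s hs
    by_contra hcon
    have h3 : b ⊓ τ.1 s ≤ ⊥ := by
      refine (h1 s).trans ?_
      rw [← prj_bot H.ce]
      refine prj_mono H.ce ?_
      rw [← H.dis s t hcon, inf_comm]
      exact inf_le_inf_left _ hc
    exact g.not_bot (g.mono h3 (g.mem_inf.2 ⟨hb, hs⟩))
  obtain ⟨t', h3, h4, h5⟩ := sac_split hg h2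
  refine g.mono (le_iSup (fun u : Pr2 t => prj E (c ⊓ Nd u.1.1) ⊓ prj E (c ⊓ Nd u.1.2))
    ⟨(t' ++ [0], t' ++ [1]), h3.trans (List.prefix_append _ _), h3.trans (List.prefix_append _ _),
      not_cmp t'⟩) (g.mem_inf.2 ⟨?_, ?_⟩)
  · exact g.mono (h1 _) (g.mem_inf.2 ⟨hb, h4⟩)
  · exact g.mono (h1 _) (g.mem_inf.2 ⟨hb, h5⟩)

/-- The parameters of a step. -/
structure Th (A C : Type u) [CompleteBooleanAlgebra A] [CompleteBooleanAlgebra C] : Type u where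
  t0 : List ℕ
  t1 : List ℕ
  c0 : C
  c1 : C
  z0 : FNm A
  z1 : FNm A

open Classical in
/-- The weights. -/
noncomputable def Ws (E : A → C) (Nd : List ℕ → C) (m : ℕ) (t : List ℕ) (c : C) (F : ℕ → ℕ → C)
    (z : ℕ → ℕ → A) (y : ℕ → ℕ → C) (D : Set C) (k : ℕ) (θ : Th A C) : A :=
  if (t <+: θ.t0 ∧ t <+: θ.t1 ∧ ¬ Cmp θ.t0 θ.t1) ∧
    (θ.c0 ∈ DcF D (uniF F y k) m ∧ θ.c0 ≤ c ⊓ agrF E z F k ⊓ Nd θ.t0) ∧
    (θ.c1 ∈ DcF D (uniF F y k) m ∧ θ.c1 ≤ c ⊓ agrF E z F k ⊓ Nd θ.t1) then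
    itpF E θ.c0 (uniF F y k) θ.z0.1 ⊓ itpF E θ.c1 (uniF F y k) θ.z1.1 else ⊥

/-- An open dense set. -/
theorem le_open {D : Set C} (hD : sSup D = ⊤) (ho : ∀ d ∈ D, ∀ d' ≤ d, d' ∈ D) (c : C) :
    c ≤ ⨆ d : {d : C // d ∈ D ∧ d ≤ c}, d.1 := by
  calc c = c ⊓ sSup D := by rw [hD, inf_top_eq]
    _ = ⨆ d ∈ D, c ⊓ d := inf_sSup_eq
    _ ≤ _ := iSup₂_le fun d hd => le_iSup (fun d : {d : C // d ∈ D ∧ d ≤ c} => d.1)
      ⟨c ⊓ d, ho d hd _ inf_le_right, inf_le_left⟩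

theorem DcF_open (D : Set C) (F : ℕ → ℕ → C) (m : ℕ) : ∀ d ∈ DcF D F m, ∀ d' ≤ d,
    d' ∈ DcF D F m := by
  rintro d ⟨⟨y, hy, hdy⟩, hd⟩ d' hd'
  refine ⟨⟨y, hy, hd'.trans hdy⟩, fun n hn => ?_⟩
  obtain ⟨v, hv⟩ := hd n hn
  exact ⟨v, hd'.trans hv⟩

theorem SX.sup_Ws (H : SX E G Nd) (hLB : LbfStatement.{u}) (m : ℕ) {t : List ℕ} {c : C}
    (hc : c ≤ Nd t) (F : ℕ → ℕ → C) {z : ℕ → ℕ → A} (hz : IsFN z) (y : ℕ → ℕ → C) {D : Set C}
    (hD : sSup D = ⊤) (k : ℕ) (hu : IsFN (uniF F y k)) :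
    itpF E c F z ≤ ⨆ θ, Ws E Nd m t c F z y D k θ := by
  refine (iInf_le _ k).trans ?_
  refine (H.split (inf_le_left.trans hc)).trans (iSup_le fun w => ?_)
  obtain ⟨⟨t0, t1⟩, ht⟩ := w
  dsimp only
  have key : ∀ s : List ℕ, prj E (c ⊓ agrF E z F k ⊓ Nd s) ≤
      ⨆ q : {q : C × FNm A // q.1 ∈ DcF D (uniF F y k) m ∧ q.1 ≤ c ⊓ agrF E z F k ⊓ Nd s},
        itpF E q.1.1 (uniF F y k) q.1.2.1 := by
    intro s
    refine (prj_mono H.ce (le_open (sSup_DcF hD hu m) (DcF_open _ _ _) _)).trans ?_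
    rw [prj_iSup H.ce]
    refine iSup_le fun d => ?_
    obtain ⟨zt, hzt, h1, -⟩ := hLB A C E H.ce d.1 (uniF F y k) z hu hz
    exact h1.trans (le_iSup (fun q : {q : C × FNm A // q.1 ∈ DcF D (uniF F y k) m ∧
      q.1 ≤ c ⊓ agrF E z F k ⊓ Nd s} => itpF E q.1.1 (uniF F y k) q.1.2.1)
      ⟨(d.1, ⟨zt, hzt⟩), d.2⟩)
  refine (inf_le_inf (key t0) (key t1)).trans ?_
  rw [iSup_inf_eq]
  refine iSup_le fun q0 => ?_
  rw [inf_iSup_eq]
  refine iSup_le fun q1 => ?_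
  refine le_iSup_of_le ⟨t0, t1, q0.1.1, q1.1.1, q0.1.2, q1.1.2⟩ ?_
  unfold Ws
  rw [if_pos ⟨ht, q0.2, q1.2⟩]

open Classical in
/-- A condition. -/
noncomputable def pks (E : A → C) (G : TX IsSac A → C) (D : Set C) (x : C) :
    Option (TX IsSac A × C) :=
  if h : ∃ q : TX IsSac A × C, q.2 ∈ D ∧ ∃ b : A, x ≤ E b ⊓ G q.1 ∧ E b ⊓ G q.1 ≤ q.2 then
    some h.choose else none

/-- The closure properties of `N`. -/
structure CloS (E : A → C) (G : TX IsSac A → C) (Nd : List ℕ → C) (N : Set El.{u}) : Prop where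
  cnt : N.Countable
  seq : ∀ (w : ℕ → Th A C → A) (b : ℕ → Th A C → ℕ → ℕ → A)
    (Z : ℕ → ℕ → A) (r : ℕ), In N w → In N b → In N Z → IsFN Z → (∀ k t, IsFN (b k t)) →
    (∀ k t, w k t ≤ agrF (fun a : A => a) Z (b k t) k) → (∀ k t, SlF r (w k t) (b k t)) →
    ∀ S : ℕ → ℕ → A, IsFN S → ∀ᶠ g in ae A, gcF N S ∈ g → capF 0 S Z ∈ g →
      (∀ k, (⨆ t, w k t) ∈ g) → ∀ m, ∃ k, m ≤ k ∧ ∃ t, In N t ∧ w k t ∈ g ∧ capF 0 S (b k t) ∈ g
  wf : ∀ (m : ℕ) (t : List ℕ), ∀ c : C, In N c → ∀ F : ℕ → ℕ → C, In N F → ∀ z : ℕ → ℕ → A,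
    In N z → ∀ y : ℕ → ℕ → C, In N y → ∀ D : Set C, In N D → In N (Ws E Nd m t c F z y (Dr E G D))
  bf : In N (fun (_ : ℕ) (θ : Th A C) => uniF θ.z0.1 θ.z1.1 0)
  ad : ∀ F : ℕ → ℕ → C, In N F → ∀ y : ℕ → ℕ → C, In N y → ∀ k : ℕ, In N (uniF F y k)
  fs : ∀ θ : Th A C, In N θ → In N θ.c0 ∧ In N θ.c1 ∧ In N θ.z0.1 ∧ In N θ.z1.1
  pk : ∀ D : Set C, In N D → ∀ x : C, In N x → ∀ q, pks E G D x = some q → In N q.1 ∧ In N q.2
  un : In N ({⊤} : Set C)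
  es : ∀ c : C, In N c → In N {d : C | d ≤ c ∨ d ≤ cᶜ}

theorem ev_list' {p : List ℕ → Set El.{u} → Prop} (h : ∀ i, ∀ᶠ N in club, p i N) :
    ∀ᶠ N in club, ∀ i, p i N := by
  obtain ⟨e, he⟩ := exists_surjective_nat (List ℕ)
  filter_upwards [ev_all (fun n => p (e n)) fun n => h (e n)] with N hN i
  obtain ⟨n, rfl⟩ := he i
  exact hN n

theorem ev_cloS (hSEQ : SeqfStatement.{u}) (E : A → C) (G : TX IsSac A → C) (Nd : List ℕ → C) :
    ∀ᶠ N in club, CloS E G Nd N := by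
  have e2 := hSEQ A (Th A C)
  have e3 : ∀ᶠ N in club, ∀ (m : ℕ) (t : List ℕ), ∀ c : C, In N c → ∀ F : ℕ → ℕ → C, In N F →
      ∀ z : ℕ → ℕ → A, In N z → ∀ y : ℕ → ℕ → C, In N y → ∀ D : Set C, In N D →
        In N (Ws E Nd m t c F z y (Dr E G D)) :=
    ev_all _ fun m => ev_list' fun t => ev_normal _ fun c => ev_normal _ fun x =>
      ev_normal _ fun z => ev_normal _ fun y => ev_normal _ fun D => ev_const _
  have e4 : ∀ᶠ N in club, In N (fun (_ : ℕ) (θ : Th A C) => uniF θ.z0.1 θ.z1.1 0) := ev_const _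
  have e5 : ∀ᶠ N in club, ∀ F : ℕ → ℕ → C, In N F → ∀ y : ℕ → ℕ → C, In N y → ∀ k : ℕ,
      In N (uniF F y k) :=
    ev_normal _ fun x => ev_normal _ fun y => ev_all _ fun k => ev_const _
  have e6 : ∀ᶠ N in club, ∀ θ : Th A C, In N θ → In N θ.c0 ∧ In N θ.c1 ∧ In N θ.z0.1 ∧
      In N θ.z1.1 :=
    ev_normal _ fun t => (ev_const t.c0).and ((ev_const t.c1).and ((ev_const t.z0.1).and
      (ev_const t.z1.1)))
  have e7 : ∀ᶠ N in club, ∀ D : Set C, In N D → ∀ x : C, In N x → ∀ q,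
      pks E G D x = some q → In N q.1 ∧ In N q.2 := by
    refine ev_normal _ fun D => ev_normal _ fun x => ?_
    cases hq : pks E G D x with
    | none => exact Eventually.of_forall fun N q h => by simp at h
    | some q =>
      filter_upwards [ev_const q.1, ev_const q.2] with N h1 h2 q' h
      rw [← Option.some_injective _ h]
      exact ⟨h1, h2⟩
  have e9 : ∀ᶠ N in club, ∀ c : C, In N c → In N {d : C | d ≤ c ∨ d ≤ cᶜ} :=
    ev_normal _ fun c => ev_const _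
  filter_upwards [ev_countable, e2, e3, e4, e5, e6, e7, ev_const ({⊤} : Set C), e9]
    with N h0 h2 h3 h4 h5 h6 h7 h8 h9
  exact ⟨h0, h2, h3, h4, h5, h6, h7, h8, h9⟩

/-- The states. -/
structure Xs (A C : Type u) [CompleteBooleanAlgebra A] [CompleteBooleanAlgebra C]
    (Nd : List ℕ → C) (N : Set El.{u}) : Type u where
  n : ℕ
  t : List ℕ
  c : C
  F : ℕ → ℕ → C
  z : ℕ → ℕ → A
  hc : In N c
  hF : In N F ∧ IsFN F ∧ ∃ r, SlF r ⊤ F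
  hz : In N z ∧ IsFN z
  hN : c ≤ Nd t

theorem cnt_Xs {N : Set El.{u}} (hN : N.Countable) : Countable (Xs A C Nd N) := by
  have c1 : Countable {t : C | In N t} := (inj_count hN C).to_subtype
  have c2 : Countable {t : ℕ → ℕ → C | In N t} := (inj_count hN _).to_subtype
  have c3 : Countable {t : ℕ → ℕ → A | In N t} := (inj_count hN _).to_subtype
  refine Function.Injective.countable (f := fun s : Xs A C Nd N =>
    ((s.n, s.t, ⟨s.c, s.hc⟩, ⟨s.F, s.hF.1⟩, ⟨s.z, s.hz.1⟩) :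
      ℕ × List ℕ × {t : C | In N t} × {t : ℕ → ℕ → C | In N t} × {t : ℕ → ℕ → A | In N t})) ?_
  rintro ⟨a1, a2, a3, a4, a5, _, _, _, _⟩ ⟨b1, b2, b3, b4, b5, _, _, _, _⟩ hab
  simp only [Prod.mk.injEq, Subtype.mk.injEq] at hab
  obtain ⟨rfl, rfl, rfl, rfl, rfl⟩ := hab
  rfl

/-- The value of a state. -/
def gds (E : A → C) {N : Set El.{u}} (S : ℕ → ℕ → A) (s : Xs A C Nd N) : A :=
  gcF N S ⊓ itpF E s.c s.F s.z ⊓ capF 0 S s.z

/-- Steps. -/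
def Stp (E : A → C) (G : TX IsSac A → C) {N : Set El.{u}} (D : ℕ → Set C) (y : ℕ → ℕ → ℕ → C)
    (s s' : Xs A C Nd N) : Prop :=
  s'.n = s.n + 1 ∧ s.t <+: s'.t ∧ s'.c ≤ s.c ∧ (∃ k, s'.F = uniF s.F (y s.n) k) ∧
    s'.c ∈ DcF (Dr E G (D s.n)) s'.F s.n

open Classical in
/-- The value of a pair of steps. -/
noncomputable def eds (E : A → C) (G : TX IsSac A → C) {N : Set El.{u}} (D : ℕ → Set C)
    (y : ℕ → ℕ → ℕ → C) (S : ℕ → ℕ → A) (s s' s'' : Xs A C Nd N) : A :=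
  if Stp E G D y s s' ∧ Stp E G D y s s'' ∧ ¬ Cmp s'.t s''.t then gds E S s' ⊓ gds E S s'' else ⊥

theorem SX.hyp (H : SX E G Nd) (hITP : ItpfStatement.{u}) (hLB : LbfStatement.{u})
    {N : Set El.{u}} (hN : CloS E G Nd N) {S : ℕ → ℕ → A} (hS : IsFN S) (D : ℕ → Set C)
    (hD : ∀ n, In N (D n) ∧ sSup (D n) = ⊤) (y : ℕ → ℕ → ℕ → C)
    (hy : ∀ n, In N (y n) ∧ IsFN (y n) ∧ ∃ r, SlF r ⊤ (y n)) :
    PHyp2 (fun s : Xs A C Nd N => s.t) (gds E S) (eds E G D y S) := by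
  obtain ⟨-, -, i3, -, -, i6, i7, -, -, -, -, -⟩ := hITP A C E H.ce
  obtain ⟨j1, -, -, -, -, -, -, -, -, j10, j11, -⟩ := hITP A A (fun a : A => a) ce_id
  obtain ⟨-, -, -, -, -, -, -, -, -, -, k11, -⟩ := hITP C C (fun a : C => a) ce_id
  refine ⟨?_, ?_, ?_, ?_⟩
  · intro s hs i hi
    have h1 : Nd s.t ≠ ⊥ := by
      intro h2
      apply hs
      have h3 : s.c = ⊥ := le_bot_iff.1 (by rw [← h2]; exact s.hN)
      have h4 : itpF E s.c s.F s.z ≤ ⊥ := by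
        refine (i3 _ _ _).trans ?_
        rw [h3, prj_bot H.ce]
      exact le_bot_iff.1 (inf_le_left.trans (inf_le_right.trans h4))
    by_contra hcon
    exact h1 (H.bot s.t fun T hT ht => hcon (hT.bin s.t ht i hi))
  · intro s s' s''
    unfold eds
    split_ifs
    · exact le_rfl
    · exact bot_le
  · intro s s' s'' h
    unfold eds at h
    split_ifs at h with h1
    · exact ⟨h1.1.2.1, h1.2.1.2.1, h1.2.2⟩
    · exact absurd rfl h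
  · intro s
    obtain ⟨r', hr'⟩ := s.hF.2.2
    obtain ⟨ry, hry⟩ := (hy s.n).2.2
    have hu : ∀ k, IsFN (uniF s.F (y s.n) k) := fun k => (k11 s.F _ k s.hF.2.1 (hy s.n).2.1).1
    have hSl : ∀ k, SlF (max r' ry + 1) ⊤ (uniF s.F (y s.n) k) := fun k =>
      sl_uni hITP s.hF.2.1 (hy s.n).2.1 hr' hry k
    refine le_of_ae ?_
    have a1 := hN.seq (Ws E Nd s.n s.t s.c s.F s.z (y s.n) (Dr E G (D s.n)))
      (fun _ θ => uniF θ.z0.1 θ.z1.1 0) s.z (max r' ry + 1 + 1)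
      (hN.wf s.n s.t s.c s.hc s.F s.hF.1 s.z s.hz.1 (y s.n) (hy s.n).1 (D s.n) (hD s.n).1)
      hN.bf s.hz.1 s.hz.2 (fun _ θ => (j11 _ _ 0 θ.z0.2 θ.z1.2).1) (fun k θ => by
        unfold Ws
        split_ifs with h
        · obtain ⟨-, ⟨-, h0⟩, -, h1⟩ := h
          have g0 := i6 θ.c0 (uniF s.F (y s.n) k) θ.z0.1 s.z k (hu k) θ.z0.2 s.hz.2
            (by rw [agr_uni _ _ _ (hy s.n).2.1]
                exact h0.trans (inf_le_left.trans inf_le_right))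
          have g1 := i6 θ.c1 (uniF s.F (y s.n) k) θ.z1.1 s.z k (hu k) θ.z1.2 s.hz.2
            (by rw [agr_uni _ _ _ (hy s.n).2.1]
                exact h1.trans (inf_le_left.trans inf_le_right))
          refine (inf_le_inf g0 g1).trans (le_of_ae ?_)
          filter_upwards [j1 s.z θ.z0.1 k s.hz.2 θ.z0.2, j1 s.z θ.z1.1 k s.hz.2 θ.z1.2,
            j1 s.z (uniF θ.z0.1 θ.z1.1 0) k s.hz.2 (j11 _ _ 0 θ.z0.2 θ.z1.2).1,
            (j11 _ _ 0 θ.z0.2 θ.z1.2).2] with g q0 q1 q2 q3 q4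
          rw [g.mem_inf] at q4
          rw [q2]
          intro p hp
          have e0 := q0.1 q4.1 p hp
          have e1 := q1.1 q4.2 p hp
          have e3 := q3 p
          rw [if_pos (Nat.zero_le _), ← e0, ← e1, Finset.union_idempotent] at e3
          exact (dS_inj e3).symm
        · exact bot_le) (fun k θ => by
        unfold Ws
        split_ifs with h
        · have g0 := i7 θ.c0 (uniF s.F (y s.n) k) θ.z0.1 _ (hu k) θ.z0.2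
            (sl_mono le_rfl le_top (hSl k))
          have g1 := i7 θ.c1 (uniF s.F (y s.n) k) θ.z1.1 _ (hu k) θ.z1.2
            (sl_mono le_rfl le_top (hSl k))
          exact sl_uni' hITP θ.z0.2 θ.z1.2 (sl_mono le_rfl inf_le_left g0)
            (sl_mono le_rfl inf_le_right g1) 0
        · exact Eventually.of_forall fun g hg => (g.not_bot hg).elim) S hS
    have hcc : Countable {θ : Th A C // In N θ} := (inj_count hN.cnt (Th A C)).to_subtype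
    have a2 : ∀ᶠ g in ae A, ∀ θ : {θ : Th A C // In N θ},
        capF 0 S (uniF θ.1.z0.1 θ.1.z1.1 0) ∈ g → capF 0 S θ.1.z0.1 ∈ g ∧
          capF 0 S θ.1.z1.1 ∈ g := by
      refine ae_all fun θ => ?_
      filter_upwards [j10 0 S _ hS θ.1.z0.2, j10 0 S _ hS θ.1.z1.2,
        j10 0 S _ hS (j11 _ _ 0 θ.1.z0.2 θ.1.z1.2).1, (j11 _ _ 0 θ.1.z0.2 θ.1.z1.2).2]
        with g q0 q1 q2 q3 q4
      have q5 := q2.1 q4
      refine ⟨q0.2 fun p hp => ?_, q1.2 fun p hp => ?_⟩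
      · have q6 := q5 p hp
        rw [q3 p, if_pos (Nat.zero_le _)] at q6
        exact Finset.subset_union_left.trans q6
      · have q6 := q5 p hp
        rw [q3 p, if_pos (Nat.zero_le _)] at q6
        exact Finset.subset_union_right.trans q6
    filter_upwards [a1, a2] with g a1 a2 hg
    obtain ⟨h1, h2⟩ := g.mem_inf.1 hg
    obtain ⟨h3, h4⟩ := g.mem_inf.1 h1
    obtain ⟨k, -, θ, hθ, hw, hd⟩ := a1 h3 h2 (fun k => g.mono (H.sup_Ws hLB s.n s.hN s.F s.hz.2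
      (y s.n) (H.sSup_Dr (hD s.n).2) k (hu k)) h4) 0
    obtain ⟨b0, b1⟩ := a2 ⟨θ, hθ⟩ hd
    unfold Ws at hw
    split_ifs at hw with hcond
    · obtain ⟨⟨ht0, ht1, ht2⟩, ⟨hd0, hc0⟩, hd1, hc1⟩ := hcond
      obtain ⟨f0, f1, f2, f3⟩ := hN.fs θ hθ
      obtain ⟨w0, w1⟩ := g.mem_inf.1 hw
      let s' : Xs A C Nd N := ⟨s.n + 1, θ.t0, θ.c0, uniF s.F (y s.n) k, θ.z0.1, f0,
        ⟨hN.ad _ s.hF.1 _ (hy s.n).1 k, hu k, _, hSl k⟩, ⟨f2, θ.z0.2⟩, hc0.trans inf_le_right⟩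
      let s'' : Xs A C Nd N := ⟨s.n + 1, θ.t1, θ.c1, uniF s.F (y s.n) k, θ.z1.1, f1,
        ⟨hN.ad _ s.hF.1 _ (hy s.n).1 k, hu k, _, hSl k⟩, ⟨f3, θ.z1.2⟩, hc1.trans inf_le_right⟩
      have h5 : eds E G D y S s s' s'' ∈ g := by
        unfold eds
        rw [if_pos ⟨⟨rfl, ht0, hc0.trans (inf_le_left.trans inf_le_left), ⟨k, rfl⟩, hd0⟩,
          ⟨rfl, ht1, hc1.trans (inf_le_left.trans inf_le_left), ⟨k, rfl⟩, hd1⟩, ht2⟩]
        exact g.mem_inf.2 ⟨g.mem_inf.2 ⟨g.mem_inf.2 ⟨h3, w0⟩, b0⟩,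
          g.mem_inf.2 ⟨g.mem_inf.2 ⟨h3, w1⟩, b1⟩⟩
      exact g.mono (le_iSup_of_le s' (le_iSup (fun s'' => eds E G D y S s s' s'') s'')) h5
    · exact (g.not_bot hw).elim

theorem res_succ' (x : Cs) (n : ℕ) : res x (n + 1) = res x n ++ [x n] := by
  unfold res
  rw [List.range_succ, List.map_append, List.map_singleton]

theorem SX.core (H : SX E G Nd) (hITP : ItpfStatement.{u}) (hLB : LbfStatement.{u})
    {N : Set El.{u}} (hN : CloS E G Nd N) {S : ℕ → ℕ → A} (hS : IsFN S) {c : C}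
    {F : ℕ → ℕ → C} {z : ℕ → ℕ → A} (hc : In N c) (hF : In N F) (hFf : IsFN F)
    (hFs : ∃ r, SlF r ⊤ F) (hz : In N z) (hzf : IsFN z) :
    gcF N S ⊓ itpF E c F z ⊓ capF 0 S z ≤ prj E
      (gcF N (fun p m => E (S p m)) ⊓ c ⊓ capF 0 (fun p m => E (S p m)) F) := by
  obtain ⟨D, hD⟩ := ((inj_count hN.cnt (Set C)).mono
    fun D (hD : D ∈ {D : Set C | In N D ∧ sSup D = ⊤}) => hD.1).exists_eq_range
      ⟨{⊤}, hN.un, by simp⟩
  have hDN : ∀ n, In N (D n) ∧ sSup (D n) = ⊤ := fun n => by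
    have : D n ∈ {D : Set C | In N D ∧ sSup D = ⊤} := hD ▸ ⟨n, rfl⟩
    exact this
  obtain ⟨y, hy⟩ := ((inj_count hN.cnt (ℕ → ℕ → C)).mono
    fun D (hD : D ∈ {y : ℕ → ℕ → C | In N y ∧ IsFN y ∧ ∃ r, SlF r ⊤ y}) =>
      hD.1).exists_eq_range ⟨F, hF, hFf, hFs⟩
  have hyN : ∀ n, In N (y n) ∧ IsFN (y n) ∧ ∃ r, SlF r ⊤ (y n) := fun n => by
    have : y n ∈ {y : ℕ → ℕ → C | In N y ∧ IsFN y ∧ ∃ r, SlF r ⊤ y} := hy ▸ ⟨n, rfl⟩
    exact this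
  have hcX : Countable (Xs A C Nd N) := cnt_Xs hN.cnt
  obtain ⟨s0, hs0⟩ : ∃ s0 : Xs A C Nd N, s0 = ⟨0, [], c, F, z, hc, ⟨hF, hFf, hFs⟩, ⟨hz, hzf⟩,
    by rw [H.nil]; exact le_top⟩ := ⟨_, rfl⟩
  have hU0 : gds E S s0 = gcF N S ⊓ itpF E c F z ⊓ capF 0 S z := by
    rw [hs0]
    rfl
  obtain ⟨P, τ, t1, t2, t3⟩ := H.tr (Xs A C Nd N) (fun s => s.t) (gds E S) (eds E G D y S)
    (H.hyp hITP hLB hN hS D hDN y hyN) s0 (gds E S s0) le_rfl
  rw [← hU0, ← H.mem (gds E S s0) τ]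
  refine prj_mono H.ce (le_of_ae ?_)
  obtain ⟨-, -, i3, -, -, -, -, l8, l9, -, -, -⟩ := hITP A C E H.ce
  obtain ⟨-, -, -, -, -, -, -, -, -, k10, k11, k12⟩ := hITP C C (fun a : C => a) ce_id
  have hS0 : IsFN fun p m => E (S p m) := l8 S hS
  -- names in `N`
  have a1 : ∀ᶠ h in ae C, ∀ G : {G : ℕ → ℕ → C // In N G ∧ IsFN G ∧ ∃ r, SlF r ⊤ G},
      (∀ p, ∃! k, G.1 p k ∈ h) ∧
      (∀ n, capF n (fun p m => E (S p m)) G.1 ∈ h ↔ ∀ p, n ≤ p →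
        dS (fv G.1 h p) ⊆ dS (fv (fun p m => E (S p m)) h p)) ∧
      ∀ (G' : {G : ℕ → ℕ → C // In N G ∧ IsFN G ∧ ∃ r, SlF r ⊤ G}) (k : ℕ), ∀ p,
        dS (fv (uniF G.1 G'.1 k) h p) =
          if k ≤ p then dS (fv G.1 h p) ∪ dS (fv G'.1 h p) else dS (fv G.1 h p) := by
    have hcc : Countable {G : ℕ → ℕ → C // In N G ∧ IsFN G ∧ ∃ r, SlF r ⊤ G} :=
      ((inj_count hN.cnt (ℕ → ℕ → C)).mono fun G hG => hG.1).to_subtype
    refine ae_all fun G => ?_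
    have b1 : ∀ᶠ h in ae C, ∀ n, capF n (fun p m => E (S p m)) G.1 ∈ h ↔ ∀ p, n ≤ p →
        dS (fv G.1 h p) ⊆ dS (fv (fun p m => E (S p m)) h p) :=
      ae_all fun n => k10 n _ _ hS0 G.2.2.1
    have b2 : ∀ᶠ h in ae C, ∀ (G' : {G : ℕ → ℕ → C // In N G ∧ IsFN G ∧ ∃ r, SlF r ⊤ G})
        (k : ℕ), ∀ p, dS (fv (uniF G.1 G'.1 k) h p) =
          if k ≤ p then dS (fv G.1 h p) ∪ dS (fv G'.1 h p) else dS (fv G.1 h p) :=
      ae_all fun G' => ae_all fun k => (k11 G.1 G'.1 k G.2.2.1 G'.2.2.1).2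
    filter_upwards [G.2.2.1, b1, b2] with h b0 b1 b2
    exact ⟨b0, b1, b2⟩
  have a2 : ∀ᶠ h in ae C, ∀ (G : {G : ℕ → ℕ → A // In N G ∧ IsFN G}),
      (∀ p, ∃! k, E (G.1 p k) ∈ h) ∧
      (capF 0 (fun p m => E (S p m)) (fun p m => E (G.1 p m)) ∈ h ↔ ∀ p, 0 ≤ p →
        dS (fv (fun p m => E (G.1 p m)) h p) ⊆ dS (fv (fun p m => E (S p m)) h p)) := by
    have hcc : Countable {G : ℕ → ℕ → A // In N G ∧ IsFN G} :=
      ((inj_count hN.cnt (ℕ → ℕ → A)).mono fun G hG => hG.1).to_subtype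
    refine ae_all fun G => ?_
    have hG := l8 G.1 G.2.2
    filter_upwards [hG, k10 0 _ _ hS0 hG] with h b0 b1
    exact ⟨b0, b1⟩
  have hcσ : Countable {σ : TX IsSac A // In N σ} := (inj_count hN.cnt _).to_subtype
  have a3 : ∀ᶠ h in ae C, ∀ σ : {σ : TX IsSac A // In N σ}, E (gds E S s0) ⊓ G τ ∈ h →
      ∀ g : Ult A, (∀ b, b ∈ g ↔ E b ∈ h) → ∀ ρ s, P ρ s ∈ g → Nd s.t ∈ h →
        (∀ ρ' s', ρ <+: ρ' → P ρ' s' ∈ g → σ.1.1 s'.t ∈ g) → G σ.1 ∈ h :=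
    ae_all fun σ => t3 σ.1
  filter_upwards [ae_pull H.ce t1, t2, a3, ae_gen (A := C) hN.cnt,
    k12 N hN.cnt (fun p m => E (S p m)), a1, a2] with h h1 h2 h3 h4 h5 h6 h7 hph
  obtain ⟨g, hg⟩ : ∃ g : Ult A, g = h.pull H.ce := ⟨_, rfl⟩
  rw [← hg] at h1
  have hgh : ∀ b, b ∈ g ↔ E b ∈ h := fun b => by rw [hg]; exact Iff.rfl
  have hag : gds E S s0 ∈ g := (hgh _).2 (h.mem_inf.1 hph).1
  obtain ⟨p0, pu, ped⟩ := h1 hag
  choose st hst using fun ρ => (pu ρ).exists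
  have hst0 : st [] = s0 := (pu []).unique (hst []) p0
  obtain ⟨β, hβ⟩ := h2 hph g hgh
  -- steps
  have hstep : ∀ ρ (i : Bool), Stp E G D y (st ρ) (st (ρ ++ [i])) ∧
      gds E S (st (ρ ++ [i])) ∈ g := by
    intro ρ i
    have q1 := ped ρ _ _ _ (hst ρ) (hst (ρ ++ [false])) (hst (ρ ++ [true]))
    unfold eds at q1
    split_ifs at q1 with q2
    · obtain ⟨q3, q4⟩ := g.mem_inf.1 q1
      cases i
      · exact ⟨q2.1, q3⟩
      · exact ⟨q2.2.1, q4⟩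
    · exact (g.not_bot q1).elim
  have hall : ∀ ρ, gds E S (st ρ) ∈ g := by
    intro ρ
    induction ρ using List.reverseRecOn with
    | nil => rw [hst0]; exact hag
    | append_singleton ρ i _ => exact (hstep ρ i).2
  have hlen : ∀ ρ, (st ρ).n = ρ.length := by
    intro ρ
    induction ρ using List.reverseRecOn with
    | nil => rw [hst0, hs0]; rfl
    | append_singleton ρ i ih => rw [(hstep ρ i).1.1, ih]; simp
  have hdec : ∀ ρ π, (st (ρ ++ π)).c ≤ (st ρ).c := by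
    intro ρ π
    induction π using List.reverseRecOn with
    | nil => rw [List.append_nil]
    | append_singleton π i ih =>
      rw [← List.append_assoc]
      exact (hstep (ρ ++ π) i).1.2.2.1.trans ih
  have hprj : ∀ ρ, prj E (st ρ).c ∈ g := fun ρ =>
    g.mono (inf_le_left.trans (inf_le_right.trans (i3 _ _ _))) (hall ρ)
  -- the branch
  let ξ : ℕ → Xs A C Nd N := fun n => st (res β n)
  have hξs : ∀ n, Stp E G D y (ξ n) (ξ (n + 1)) := fun n => by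
    simp only [ξ, res_succ']
    exact (hstep _ _).1
  have hξn : ∀ n, (ξ n).n = n := fun n => by
    simp only [ξ]
    rw [hlen]
    simp [res]
  have hca : ∀ m l, m ≤ l → (ξ l).c ≤ (ξ m).c := fun m l hml =>
    antitone_nat_of_succ_le (f := fun n => (ξ n).c) (fun n => (hξs n).2.2.1) hml
  have hnd : ∀ n, Nd (ξ n).t ∈ h := fun n => hβ n _ (hst _)
  -- the conditions
  have hcond : ∀ m, ∃ (x d : C), x ∈ h ∧ d ∈ h ∧ (ξ (m + 1)).c ≤ x ∧ x ≤ d ∧ d ∈ D m ∧ In N d ∧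
      x ≤ d := by
    intro m
    obtain ⟨-, -, -, -, hdc⟩ := hξs m
    rw [hξn m] at hdc
    obtain ⟨⟨x, ⟨b, σ, d, hx, hd, hxd⟩, hcx⟩, -⟩ := hdc
    have hex : ∃ q : TX IsSac A × C, q.2 ∈ D m ∧
        ∃ b : A, (ξ (m + 1)).c ≤ E b ⊓ G q.1 ∧ E b ⊓ G q.1 ≤ q.2 :=
      ⟨(σ, d), hd, b, by rw [← hx]; exact hcx, by rw [← hx]; exact hxd⟩
    have hpk := hN.pk (D m) (hDN m).1 (ξ (m + 1)).c (ξ (m + 1)).hc hex.choose (by
      unfold pks
      rw [dif_pos hex])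
    obtain ⟨q1, b', q2, q3⟩ := hex.choose_spec
    obtain ⟨⟨σ', d'⟩, hq⟩ : ∃ q, q = hex.choose := ⟨_, rfl⟩
    rw [← hq] at q1 q2 q3 hpk
    dsimp only at q1 q2 q3 hpk
    have hdesc : ∀ π, b' ∈ g ∧ σ'.1 (st (res β (m + 1) ++ π)).t ∈ g := by
      intro π
      have r1 := hprj (res β (m + 1) ++ π)
      have r2 : (st (res β (m + 1) ++ π)).c ≤
          E b' ⊓ G σ' ⊓ Nd (st (res β (m + 1) ++ π)).t :=
        le_inf ((hdec _ π).trans q2) (st (res β (m + 1) ++ π)).hN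
      have r3 := g.mono (prj_mono H.ce r2) r1
      rw [H.nd] at r3
      exact g.mem_inf.1 r3
    have hG : G σ' ∈ h := by
      refine h3 ⟨σ', hpk.1⟩ hph g hgh (res β (m + 1)) (ξ (m + 1)) (hst _) (hnd _) ?_
      rintro ρ' s' ⟨π, rfl⟩ hs'
      have r4 : s' = st (res β (m + 1) ++ π) := (pu _).unique hs' (hst _)
      rw [r4]
      exact (hdesc π).2
    have hx' : E b' ⊓ G σ' ∈ h := h.mem_inf.2 ⟨(hgh b').1 (hdesc []).1, hG⟩
    exact ⟨E b' ⊓ G σ', d', hx', h.mono q3 hx', q2, q3, q1, hpk.2, q3⟩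
  have hgen : gen C N ∈ h := by
    refine h4 fun D' hD' hDt' => ?_
    obtain ⟨m, rfl⟩ : D' ∈ Set.range D := hD ▸ ⟨hD', hDt'⟩
    obtain ⟨x, d, -, hd, -, -, hdD, hdN, -⟩ := hcond m
    exact ⟨d, hdD, hdN, hd⟩
  have hcm : ∀ n, (ξ n).c ∈ h := by
    intro n
    have hD1 : sSup {d : C | d ≤ (ξ n).c ∨ d ≤ (ξ n).cᶜ} = ⊤ := by
      rw [eq_top_iff, ← sup_compl_eq_top (x := (ξ n).c)]
      exact sup_le (le_sSup (Or.inl le_rfl)) (le_sSup (Or.inr le_rfl))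
    obtain ⟨m, hm⟩ : {d : C | d ≤ (ξ n).c ∨ d ≤ (ξ n).cᶜ} ∈ Set.range D :=
      hD ▸ ⟨hN.es _ (ξ n).hc, hD1⟩
    obtain ⟨x, d, hx, hdh, hcx, hxd, hdD, -⟩ := hcond m
    rw [hm] at hdD
    rcases hdD with q | q
    · exact h.mono q hdh
    · exfalso
      have r1 : (ξ (max (m + 1) n)).c ≤ ⊥ := by
        rw [← inf_compl_eq_bot (a := (ξ n).c)]
        exact le_inf (hca _ _ (le_max_right _ _))
          ((hca _ _ (le_max_left _ _)).trans (hcx.trans (hxd.trans q)))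
      have r2 := hprj (res β (max (m + 1) n))
      have r3 : (st (res β (max (m + 1) n))).c = ⊥ := le_bot_iff.1 r1
      rw [r3, prj_bot H.ce] at r2
      exact g.not_bot r2
  -- the slaloms are captured
  have hxm : ∀ p m l, m ≤ l → dS (fv (ξ m).F h p) ⊆ dS (fv (ξ l).F h p) :=
    fun p m l hml => monotone_nat_of_le_succ (f := fun n => dS (fv (ξ n).F h p)) (fun n => by
      obtain ⟨-, -, -, ⟨k', q7⟩, -⟩ := hξs n
      rw [hξn n] at q7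
      have q8 := (h6 ⟨(ξ n).F, (ξ n).hF⟩).2.2 ⟨y n, hyN n⟩ k' p
      dsimp only at q8
      rw [q7, q8]
      split_ifs
      · exact Finset.subset_union_left
      · exact le_rfl) hml
  have hdj : ∀ m n, dS (fv (ξ m).F h n) ⊆ dS (fv (fun p m => E (S p m)) h n) := by
    intro m n
    obtain ⟨-, -, -, -, hdc⟩ := hξs (max m n)
    rw [hξn] at hdc
    obtain ⟨v, hv⟩ := hdc.2 n (le_max_right _ _)
    refine (hxm n m (max m n + 1) ((le_max_left _ _).trans (Nat.le_succ _))).trans ?_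
    have q7 : (ξ (max m n + 1)).F n v ∈ h := h.mono hv (hcm (max m n + 1))
    have q8 : fv (ξ (max m n + 1)).F h n = v :=
      fv_eq ((h6 ⟨(ξ (max m n + 1)).F, (ξ (max m n + 1)).hF⟩).1 n) q7
    have q0 := hall (res β (max m n + 1))
    have q9 : (ξ (max m n + 1)).z n v ∈ g :=
      g.mono (inf_le_left.trans (inf_le_right.trans (itpF_le H.ce (ξ (max m n + 1)).hF.2.1 hv))) q0
    have q10 := h7 ⟨(ξ (max m n + 1)).z, (ξ (max m n + 1)).hz⟩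
    have q11 : fv (fun p m' => E ((ξ (max m n + 1)).z p m')) h n = v :=
      fv_eq (q10.1 n) ((hgh _).1 q9)
    have q12 : E (capF 0 S (ξ (max m n + 1)).z) ∈ h := (hgh _).1 (g.mono inf_le_right q0)
    rw [l9] at q12
    have q13 := q10.2.1 q12 n (Nat.zero_le _)
    dsimp only at q13
    rw [q11] at q13
    rw [q8]
    exact q13
  have hξ0 : ξ 0 = s0 := hst0
  refine h.mem_inf.2 ⟨h.mem_inf.2 ⟨h5.2 ⟨hgen, fun G' hG hGf hGs => ?_⟩, ?_⟩, ?_⟩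
  · obtain ⟨m, rfl⟩ : G' ∈ Set.range y := hy ▸ ⟨hG, hGf, hGs⟩
    obtain ⟨-, -, -, ⟨k, hk⟩, -⟩ := hξs m
    rw [hξn m] at hk
    refine ⟨k, ((h6 ⟨y m, hyN m⟩).2.1 k).2 fun p hp => ?_⟩
    refine subset_trans ?_ (hdj (m + 1) p)
    have q8 := (h6 ⟨(ξ m).F, (ξ m).hF⟩).2.2 ⟨y m, hyN m⟩ k p
    dsimp only at q8
    rw [hk, q8, if_pos hp]
    exact Finset.subset_union_right
  · have q6 := hcm 0
    rw [hξ0, hs0] at q6
    exact q6
  · refine ((h6 ⟨F, hF, hFf, hFs⟩).2.1 0).2 fun p _ => ?_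
    have q7 := hdj 0 p
    rw [hξ0, hs0] at q7
    exact q7

end

/-- Module PRSAC: Sacks forcing preserves captured slaloms. -/
theorem prsac (hTR : TrsacStatement.{u}) (hSEQ : SeqfStatement.{u}) (hITP : ItpfStatement.{u})
    (hLB : LbfStatement.{u}) (hGND : GndStatement.{u}) (hGMX : GmxStatement.{u})
    (hFAM : FamStatement) : PrsacStatement.{u} := by
  intro A _
  obtain ⟨-, n2, -, n4, -, n6, n7, -⟩ := hGND IsSac hFAM.2.2 A
  obtain ⟨-, m2, m3, -⟩ := hGMX IsSac hFAM.2.2 A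
  have H : SX (tE IsSac A) (tG (𝒯 := IsSac) (A := A)) (tND (𝒯 := IsSac) (A := A)) :=
    ⟨tE_ce hFAM.2.2 A, n2, n4, n6, n7, m2, m3, fun X _ nd gd ed h s0 a ha =>
      hTR A X nd gd ed h s0 a ha⟩
  unfold PRESS
  filter_upwards [ev_cloS hSEQ (tE IsSac A) (tG (𝒯 := IsSac) (A := A))
    (tND (𝒯 := IsSac) (A := A))] with N hN S c F z hS hc hF hFf hFs hz hzf
  exact H.core hITP hLB hN hS hc hF hFf hFs hz hzf

end Pool.Agent.Lib.MP_a78e1f_lc.H57
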