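import Pool.Agent.Lib.MP_a78e1f_lc.K.Iface
import Pool.Agent.Lib.MP_6d445e_gt.H22.Prlim

/-!
# Names of slaloms: auxiliary facts
-/

set_option autoImplicit false

universe u v w

open Cardinal Filter MeasureTheory

namespace Pool.Agent.Lib.MP_a78e1f_lc.H57

open Pool.Agent.Lib.MP_100a6c_lc
open Pool.Agent.Lib.MP_c5d73d_lc.F (pr)
open Pool.Agent.Lib.MP_e6fef2_lc
open Pool.Agent.Lib.MP_e6fef2_lc.H57
open Pool.Agent.Lib.MP_6d445e_gt

theorem dS_zero : dS 0 = ∅ := by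
  unfold dS
  simp [Finset.equivBitIndices]

theorem dS_inj {m n : ℕ} (h : dS m = dS n) : m = n := Finset.equivBitIndices.injective h

section

variable {A C : Type u} [CompleteBooleanAlgebra A] [CompleteBooleanAlgebra C]

theorem fv_mem {F : ℕ → ℕ → A} {g : Ult A} {p : ℕ} (h : ∃! k, F p k ∈ g) : F p (fv F g p) ∈ g := by
  obtain ⟨k, hk, -⟩ := h
  exact Nat.sInf_mem (s := {k | F p k ∈ g}) ⟨k, hk⟩

theorem fv_eq {F : ℕ → ℕ → A} {g : Ult A} {p v : ℕ} (h : ∃! k, F p k ∈ g) (hv : F p v ∈ g) :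
    fv F g p = v := h.unique (fv_mem h) hv

theorem fn_inf {F : ℕ → ℕ → A} (h : IsFN F) (p : ℕ) {i j : ℕ} (hij : i ≠ j) :
    F p i ⊓ F p j = ⊥ := by
  refine le_bot_iff.1 (le_of_ae ?_)
  filter_upwards [h] with g hg h1
  rw [g.mem_inf] at h1
  exact absurd ((hg p).unique h1.1 h1.2) hij

theorem fn_sup {F : ℕ → ℕ → A} (h : IsFN F) (p : ℕ) : (⨆ j, F p j) = ⊤ := by
  refine top_le_iff.1 (le_of_ae ?_)
  filter_upwards [h] with g hg _
  obtain ⟨k, hk, -⟩ := hg p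
  exact g.mono (le_iSup _ k) hk

theorem uniF_lt {F F' : ℕ → ℕ → A} (hF' : IsFN F') {p k : ℕ} (hp : p < k) (m : ℕ) :
    uniF F F' k p m = F p m := by
  unfold uniF
  simp only [not_le.2 hp, if_false]
  refine le_antisymm (iSup_le fun i => iSup_le fun j => iSup_le fun h => ?_) ?_
  · rw [dS_inj h]
    exact inf_le_left
  · calc F p m = F p m ⊓ ⨆ j, F' p j := by rw [fn_sup hF', inf_top_eq]
      _ = ⨆ j, F p m ⊓ F' p j := inf_iSup_eq _ _
      _ ≤ _ := iSup_le fun j => le_iSup_of_le m (le_iSup_of_le j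
        (le_iSup (fun _ : dS m = dS m => F p m ⊓ F' p j) rfl))

theorem agr_uni (f : A → C) (Z : ℕ → ℕ → A) (F : ℕ → ℕ → C) {F' : ℕ → ℕ → C} (hF' : IsFN F')
    (k : ℕ) : agrF f Z (uniF F F' k) k = agrF f Z F k := by
  unfold agrF
  refine iInf_congr fun p => iInf_congr fun hp => ?_
  simp only [uniF_lt hF' hp]

theorem sl_mono {j j' : ℕ} {a a' : A} {F : ℕ → ℕ → A} (hj : j ≤ j') (ha : a' ≤ a)
    (h : SlF j a F) : SlF j' a' F := by
  unfold SlF at h ⊢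
  filter_upwards [h] with g hg hag p
  exact (hg (g.mono ha hag) p).trans (Nat.pow_le_pow_right (by omega) hj)

theorem sl_uni (hITP : ItpfStatement.{u}) {F F' : ℕ → ℕ → A} (hF : IsFN F) (hF' : IsFN F') {j j' : ℕ}
    (h : SlF j ⊤ F) (h' : SlF j' ⊤ F') (k : ℕ) : SlF (max j j' + 1) ⊤ (uniF F F' k) := by
  obtain ⟨-, -, -, -, -, -, -, -, -, -, i11, -⟩ := hITP A A (fun a : A => a) ce_id
  unfold SlF at h h' ⊢
  filter_upwards [h, h', (i11 F F' k hF hF').2] with g h h' hu _ p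
  have h1 := h g.mem_top p
  have h2 := h' g.mem_top p
  rw [hu p]
  have h3 : (p + 2) ^ j ≤ (p + 2) ^ (max j j') := Nat.pow_le_pow_right (by omega) (le_max_left _ _)
  have h4 : (p + 2) ^ j' ≤ (p + 2) ^ (max j j') :=
    Nat.pow_le_pow_right (by omega) (le_max_right _ _)
  have h5 : (p + 2) ^ (max j j' + 1) = (p + 2) ^ (max j j') * (p + 2) := pow_succ _ _
  have h6 : (p + 2) ^ (max j j') * 2 ≤ (p + 2) ^ (max j j') * (p + 2) :=
    Nat.mul_le_mul_left _ (by omega)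
  split_ifs
  · have h7 := Finset.card_union_le (dS (fv F g p)) (dS (fv F' g p))
    omega
  · omega

/-- agreement, after a change of the interpretation -/
theorem agr_chg {f : A → C} (hf : IsCE f) {Z Z' : ℕ → ℕ → A} {a : A}
    (h : ∀ p j, a ⊓ Z p j ≤ Z' p j) (F : ℕ → ℕ → C) (k : ℕ) :
    f a ⊓ agrF f Z F k ≤ agrF f Z' F k := by
  unfold agrF
  refine le_iInf fun p => le_iInf fun hp => ?_
  refine (inf_le_inf_left _ ((iInf_le _ p).trans (iInf_le _ hp))).trans ?_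
  rw [inf_iSup_eq]
  refine iSup_le fun j => le_iSup_of_le j ?_
  rw [← inf_assoc, ← ce_inf hf]
  exact inf_le_inf_right _ (ce_mono hf (h p j))

/-- The next interpretation. -/
theorem exists_xhF (hLB : LbfStatement.{u}) (hITP : ItpfStatement.{u}) {e : A → C} (he : IsCE e)
    (c : C) {F : ℕ → ℕ → C} (hF : IsFN F) {Y : ℕ → ℕ → A} (hY : IsFN Y) :
    ∃ Z : ℕ → ℕ → A, IsFN Z ∧ (∀ r, SlF r ⊤ F → SlF r ⊤ Z) ∧ prj e c ≤ itpF e c F Z ∧
      ∀ l, prj e (c ⊓ agrF e Y F l) ≤ agrF (fun a : A => a) Y Z l := by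
  obtain ⟨-, -, -, -, -, -, i7, -, -, -, -, -⟩ := hITP A C e he
  obtain ⟨Z, hZ, h1, h2⟩ := hLB A C e he c F Y hF hY
  obtain ⟨Z', hZ'⟩ : ∃ Z' : ℕ → ℕ → A, Z' = fun p m => (Z p m ⊓ prj e c) ⊔
    (if m = 0 then (prj e c)ᶜ else ⊥) := ⟨_, rfl⟩
  have k1 : ∀ g : Ult A, prj e c ∈ g → ∀ p m, Z' p m ∈ g ↔ Z p m ∈ g := by
    intro g hg p m
    rw [hZ']
    dsimp only
    rw [g.mem_sup, g.mem_inf]
    by_cases hm : m = 0
    · rw [if_pos hm, g.mem_compl]
      tauto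
    · rw [if_neg hm]
      have := g.not_bot
      tauto
  have k2 : ∀ g : Ult A, prj e c ∉ g → ∀ p m, Z' p m ∈ g ↔ m = 0 := by
    intro g hg p m
    rw [hZ']
    dsimp only
    rw [g.mem_sup, g.mem_inf]
    by_cases hm : m = 0
    · rw [if_pos hm, g.mem_compl]
      tauto
    · rw [if_neg hm]
      have := g.not_bot
      tauto
  have hfn : IsFN Z' := by
    filter_upwards [hZ] with g hg p
    by_cases hc : prj e c ∈ g
    · obtain ⟨k, hk, hk'⟩ := hg p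
      exact ⟨k, (k1 g hc p k).2 hk, fun m hm => hk' m ((k1 g hc p m).1 hm)⟩
    · exact ⟨0, (k2 g hc p 0).2 rfl, fun m hm => (k2 g hc p m).1 hm⟩
  have hch : ∀ p j, prj e c ⊓ Z p j ≤ Z' p j := by
    intro p j
    rw [hZ', inf_comm]
    exact le_sup_left
  refine ⟨Z', hfn, ?_, ?_, ?_⟩
  · intro r hr
    have h3 := i7 c F Z r hF hZ (sl_mono le_rfl le_top hr)
    have h4 := sl_mono le_rfl h1 h3
    unfold SlF at h4 ⊢
    filter_upwards [h4, hZ, hfn] with g hg hgZ hgZ' _ p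
    by_cases hc : prj e c ∈ g
    · have h5 : fv Z' g p = fv Z g p := fv_eq (hgZ' p) ((k1 g hc p _).2 (fv_mem (hgZ p)))
      rw [h5]
      exact hg hc p
    · have h5 : fv Z' g p = 0 := fv_eq (hgZ' p) ((k2 g hc p 0).2 rfl)
      rw [h5, dS_zero, Finset.card_empty]
      exact Nat.zero_le _
  · refine h1.trans (iInf_mono fun k => prj_mono he ?_)
    refine le_inf inf_le_left ?_
    refine le_trans ?_ (agr_chg he hch F k)
    exact le_inf (inf_le_left.trans (le_prj he c)) inf_le_right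
  · intro l
    have h3 : prj e (c ⊓ agrF e Y F l) ≤ agrF (fun a : A => a) Y Z l ⊓ prj e c :=
      le_inf (h2 l) (prj_mono he inf_le_left)
    refine h3.trans ?_
    unfold agrF
    refine le_iInf fun p => le_iInf fun hp => ?_
    refine (inf_le_inf_right _ ((iInf_le _ p).trans (iInf_le _ hp))).trans ?_
    rw [iSup_inf_eq]
    refine iSup_le fun j => le_iSup_of_le j ?_
    rw [inf_assoc]
    refine inf_le_inf_left _ ?_
    rw [inf_comm]
    exact hch p j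

/-- Elements below an element of `D` which decide `F n` for `n ≤ m`. -/
def DcF (D : Set C) (F : ℕ → ℕ → C) (m : ℕ) : Set C :=
  {d | (∃ y ∈ D, d ≤ y) ∧ ∀ n ≤ m, ∃ v, d ≤ F n v}

theorem sSup_DcF {D : Set C} (hD : sSup D = ⊤) {F : ℕ → ℕ → C} (hF : IsFN F) (m : ℕ) :
    sSup (DcF D F m) = ⊤ := by
  rw [eq_top_iff]
  refine le_of_ae ?_
  filter_upwards [ae_of_sSup hD, hF] with g hg hFg _
  obtain ⟨y, hy, hyg⟩ := hg
  have h1 : y ⊓ ⨅ n ∈ Finset.range (m + 1), F n (fv F g n) ∈ g :=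
    g.mem_inf.2 ⟨hyg, (g.mem_finset_iInf _ _).2 fun n _ => fv_mem (hFg n)⟩
  refine g.mono (le_sSup ⟨⟨y, hy, inf_le_left⟩, fun n hn => ⟨fv F g n, ?_⟩⟩) h1
  exact inf_le_right.trans ((iInf_le _ n).trans (iInf_le _ (Finset.mem_range.2 (by omega))))

theorem itpF_le {e : A → C} (he : IsCE e) {c : C} {F : ℕ → ℕ → C} (hF : IsFN F)
    {Z : ℕ → ℕ → A} {p v : ℕ} (h : c ≤ F p v) : itpF e c F Z ≤ Z p v := by
  refine (iInf_le _ (p + 1)).trans ((prj_le he _ _).2 ?_)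
  have h1 : agrF e Z F (p + 1) ≤ ⨆ j, e (Z p j) ⊓ F p j :=
    (iInf_le _ p).trans (iInf_le _ (Nat.lt_succ_self p))
  refine (inf_le_inf h h1).trans ?_
  rw [inf_iSup_eq]
  refine iSup_le fun j => ?_
  by_cases hj : v = j
  · subst hj
    exact inf_le_right.trans inf_le_left
  · rw [inf_left_comm, fn_inf hF p hj, inf_bot_eq]
    exact bot_le

end

end Pool.Agent.Lib.MP_a78e1f_lc.H57
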