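import Pool.Agent.Lib.MP_a78e1f_lc.H57.FnAux
import Pool.Agent.Lib.MP_6d445e_gt.H97.Af

/-!
# Module PRLIMF: preservation of captured slaloms at limits
-/

set_option autoImplicit false

universe u v w

open Cardinal Filter MeasureTheory

namespace Pool.Agent.Lib.MP_a78e1f_lc.H57

open Pool.Agent.Lib.MP_100a6c_lc
open Pool.Agent.Lib.MP_c5d73d_lc.F (pr)
open Pool.Agent.Lib.MP_e6fef2_lc
open Pool.Agent.Lib.MP_e6fef2_lc.H57
open Pool.Agent.Lib.MP_6d445e_gt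
open Pool.Agent.Lib.MP_6d445e_gt.H22 (inj_count ae_gen)
open Pool.Agent.Lib.MP_e6fef2_lc.H15 (ev_countable ev_const ev_normal ev_fun ev_fun2 ev_sets ev_all
  supp Es mem_Es le_sSup_Es pick pick_spec)

/-- Names of functions. -/
abbrev FNm (A : Type u) [CompleteBooleanAlgebra A] : Type u := {Z : ℕ → ℕ → A // IsFN Z}

section

variable {L : Type u} [LinearOrder L] {A : L → Type u} [∀ i, CompleteBooleanAlgebra (A i)]
  {f : ∀ i j, A i → A j} {C : Type u} [CompleteBooleanAlgebra C] {e : ∀ i, A i → C}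

open Classical in
/-- The family for the sequence lemma. -/
noncomputable def WfF (e : ∀ i, A i → C) (j : L) (m : ℕ) (c : C) (F : ℕ → ℕ → C) (z : ℕ → ℕ → A j)
    (y : ℕ → ℕ → C) (D : Set C) (k : ℕ) (t : C × FNm (A j)) : A j :=
  if t.1 ∈ Es e (DcF D (uniF F y k) m) ∧ t.1 ≤ c ⊓ agrF (e j) z F k then
    itpF (e j) t.1 (uniF F y k) t.2.1 else ⊥

open Classical in
/-- The next interpretation. -/
noncomputable def XhF {B : Type u} [CompleteBooleanAlgebra B] (e : B → C) (c : C)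
    (F : ℕ → ℕ → C) (Y : ℕ → ℕ → B) : ℕ → ℕ → B :=
  if h : ∃ Z : ℕ → ℕ → B, IsFN Z ∧ (∀ r, SlF r ⊤ F → SlF r ⊤ Z) ∧ prj e c ≤ itpF e c F Z ∧
      ∀ l, prj e (c ⊓ agrF e Y F l) ≤ agrF (fun a : B => a) Y Z l then h.choose else Y

theorem XhF_spec (hLB : LbfStatement.{u}) (hITP : ItpfStatement.{u})
    {B : Type u} [CompleteBooleanAlgebra B] {e : B → C} (he : IsCE e) (c : C) {F : ℕ → ℕ → C}
    (hF : IsFN F) {Y : ℕ → ℕ → B} (hY : IsFN Y) :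
    IsFN (XhF e c F Y) ∧ (∀ r, SlF r ⊤ F → SlF r ⊤ (XhF e c F Y)) ∧
      prj e c ≤ itpF e c F (XhF e c F Y) ∧
      ∀ l, prj e (c ⊓ agrF e Y F l) ≤ agrF (fun a : B => a) Y (XhF e c F Y) l := by
  have h := exists_xhF hLB hITP he c hF hY
  unfold XhF
  rw [dif_pos h]
  exact h.choose_spec

variable (f e) in
/-- The closure properties of `N`. -/
structure CloF (N : Set El.{u}) : Prop where
  cnt : N.Countable
  pres : ∀ j, In N j → ∀ j', In N j' → j ≤ j' → ∀ (S : ℕ → ℕ → A j) (c : A j')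
    (F : ℕ → ℕ → A j') (Z : ℕ → ℕ → A j), IsFN S → In N c → In N F → IsFN F →
    (∃ r, SlF r ⊤ F) → In N Z → IsFN Z →
    gcF N S ⊓ itpF (f j j') c F Z ⊓ capF 0 S Z ≤
      prj (f j j') (gcF N (fun p m => f j j' (S p m)) ⊓ c ⊓ capF 0 (fun p m => f j j' (S p m)) F)
  seq : ∀ j, In N j → ∀ (w : ℕ → C × FNm (A j) → A j) (b : ℕ → C × FNm (A j) → ℕ → ℕ → A j)
    (Z : ℕ → ℕ → A j) (r : ℕ), In N w → In N b → In N Z → IsFN Z → (∀ k t, IsFN (b k t)) →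
    (∀ k t, w k t ≤ agrF (fun a : A j => a) Z (b k t) k) → (∀ k t, SlF r (w k t) (b k t)) →
    ∀ S : ℕ → ℕ → A j, IsFN S → ∀ᶠ g in ae (A j), gcF N S ∈ g → capF 0 S Z ∈ g →
      (∀ k, (⨆ t, w k t) ∈ g) → ∀ m, ∃ k, m ≤ k ∧ ∃ t, In N t ∧ w k t ∈ g ∧ capF 0 S (b k t) ∈ g
  wf : ∀ j, In N j → ∀ m : ℕ, ∀ c : C, In N c → ∀ F : ℕ → ℕ → C, In N F → ∀ z : ℕ → ℕ → A j,
    In N z → ∀ y : ℕ → ℕ → C, In N y → ∀ D : Set C, In N D → In N (WfF e j m c F z y D)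
  bf : ∀ j, In N j → In N (fun (_ : ℕ) (t : C × FNm (A j)) => t.2.1)
  pj : ∀ j, In N j → ∀ c : C, In N c → In N (prj (e j) c)
  sp : ∀ c : C, In N c → In N (supp e c)
  st : ∀ s : Set L, In N s → s.Countable → ∀ i ∈ s, In N i
  pk : ∀ (D : Set C) (d : C), In N D → In N d → In N (pick D d)
  xh : ∀ j, In N j → ∀ c : C, In N c → ∀ F : ℕ → ℕ → C, In N F → ∀ y : ℕ → ℕ → A j, In N y →
    In N (XhF (e j) c F y)
  cf : ∀ j, In N j → ∀ j', In N j' → ∀ z : ℕ → ℕ → A j, In N z → In N (fun p m => f j j' (z p m))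
  ad : ∀ F : ℕ → ℕ → C, In N F → ∀ y : ℕ → ℕ → C, In N y → ∀ k : ℕ, In N (uniF F y k)
  fs : ∀ j, In N j → ∀ t : C × FNm (A j), In N t → In N t.1 ∧ In N t.2.1

theorem ev_cloF (hSEQ : SeqfStatement.{u}) (hPR : ∀ i j, i ≤ j → PRESS (f i j)) :
    ∀ᶠ N in club, CloF f e N := by
  have e1 : ∀ᶠ N in club, ∀ j, In N j → ∀ j', In N j' → j ≤ j' → ∀ (S : ℕ → ℕ → A j) (c : A j')
      (F : ℕ → ℕ → A j') (Z : ℕ → ℕ → A j), IsFN S → In N c → In N F → IsFN F →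
      (∃ r, SlF r ⊤ F) → In N Z → IsFN Z →
      gcF N S ⊓ itpF (f j j') c F Z ⊓ capF 0 S Z ≤ prj (f j j')
        (gcF N (fun p m => f j j' (S p m)) ⊓ c ⊓ capF 0 (fun p m => f j j' (S p m)) F) := by
    refine ev_normal _ fun i => ev_normal _ fun j => ?_
    by_cases hij : i ≤ j
    · filter_upwards [hPR i j hij] with N hN _
      exact hN
    · exact Eventually.of_forall fun N h => absurd h hij
  have e2 : ∀ᶠ N in club, ∀ j, In N j → ∀ (w : ℕ → C × FNm (A j) → A j)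
      (b : ℕ → C × FNm (A j) → ℕ → ℕ → A j)
      (Z : ℕ → ℕ → A j) (r : ℕ), In N w → In N b → In N Z → IsFN Z → (∀ k t, IsFN (b k t)) →
      (∀ k t, w k t ≤ agrF (fun a : A j => a) Z (b k t) k) → (∀ k t, SlF r (w k t) (b k t)) →
      ∀ S : ℕ → ℕ → A j, IsFN S → ∀ᶠ g in ae (A j), gcF N S ∈ g → capF 0 S Z ∈ g →
        (∀ k, (⨆ t, w k t) ∈ g) →
        ∀ m, ∃ k, m ≤ k ∧ ∃ t, In N t ∧ w k t ∈ g ∧ capF 0 S (b k t) ∈ g :=
    ev_normal _ fun j => hSEQ (A j) (C × FNm (A j))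
  have e3 : ∀ᶠ N in club, ∀ j, In N j → ∀ m : ℕ, ∀ c : C, In N c → ∀ F : ℕ → ℕ → C, In N F →
      ∀ z : ℕ → ℕ → A j, In N z → ∀ y : ℕ → ℕ → C, In N y → ∀ D : Set C, In N D →
        In N (WfF e j m c F z y D) :=
    ev_normal _ fun j => ev_all _ fun m => ev_normal _ fun c => ev_normal _ fun x =>
      ev_normal _ fun z => ev_normal _ fun y => ev_normal _ fun D => ev_const _
  have e4 : ∀ᶠ N in club, ∀ j, In N j → In N (fun (_ : ℕ) (t : C × FNm (A j)) => t.2.1) :=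
    ev_normal _ fun j => ev_const _
  have e5 : ∀ᶠ N in club, ∀ j, In N j → ∀ c : C, In N c → In N (prj (e j) c) :=
    ev_normal _ fun j => ev_fun fun c => prj (e j) c
  have e6 : ∀ᶠ N in club, ∀ c : C, In N c → In N (supp e c) := ev_fun fun c => supp e c
  have e7 : ∀ᶠ N in club, ∀ (D : Set C) (d : C), In N D → In N d → In N (pick D d) :=
    ev_fun2 fun D d => pick D d
  have e8 : ∀ᶠ N in club, ∀ j, In N j → ∀ c : C, In N c → ∀ F : ℕ → ℕ → C, In N F →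
      ∀ y : ℕ → ℕ → A j, In N y → In N (XhF (e j) c F y) :=
    ev_normal _ fun j => ev_normal _ fun c => ev_normal _ fun x => ev_normal _ fun y => ev_const _
  have e9 : ∀ᶠ N in club, ∀ j, In N j → ∀ j', In N j' → ∀ z : ℕ → ℕ → A j, In N z →
      In N (fun p m => f j j' (z p m)) :=
    ev_normal _ fun j => ev_normal _ fun j' => ev_normal _ fun z => ev_const _
  have e10 : ∀ᶠ N in club, ∀ F : ℕ → ℕ → C, In N F → ∀ y : ℕ → ℕ → C, In N y → ∀ k : ℕ,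
      In N (uniF F y k) :=
    ev_normal _ fun x => ev_normal _ fun y => ev_all _ fun k => ev_const _
  have e11 : ∀ᶠ N in club, ∀ j, In N j → ∀ t : C × FNm (A j), In N t → In N t.1 ∧ In N t.2.1 :=
    ev_normal _ fun j => ev_normal _ fun t => (ev_const t.1).and (ev_const t.2.1)
  filter_upwards [ev_countable, e1, e2, e3, e4, e5, e6, ev_sets L, e7, e8, e9, e10, e11]
    with N h0 h1 h2 h3 h4 h5 h6 h6' h7 h8 h9 h10 h11
  exact ⟨h0, h1, h2, h3, h4, h5, h6, h6', h7, h8, h9, h10, h11⟩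

theorem stepF (hLB : LbfStatement.{u}) (hITP : ItpfStatement.{u}) (hITP2 : Itp2fStatement.{u})
    (hch : IsCh A f) (htop : IsTop A f e) (hDP : DP A e)
    {N : Set El.{u}} (hN : CloF f e N) {j j' : L} (hj : In N j) (hj' : In N j') (hjj : j ≤ j')
    {S : ℕ → ℕ → A j} (hS : IsFN S) (m : ℕ) {c : C} (hc : In N c) {F : ℕ → ℕ → C} (hF : In N F)
    (hFf : IsFN F) (hFs : ∃ r, SlF r ⊤ F) {z : ℕ → ℕ → A j} (hz : In N z) (hzf : IsFN z)
    {y : ℕ → ℕ → C} (hy : In N y) (hyf : IsFN y) (hys : ∃ r, SlF r ⊤ y) {D : Set C} (hD : In N D)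
    (hDt : sSup D = ⊤) :
    gcF N S ⊓ itpF (e j) c F z ⊓ capF 0 S z ≤ prj (f j j')
      (⨆ s : C × (ℕ → ℕ → C) × (ℕ → ℕ → A j'), ⨆ _ : (In N s.1 ∧ (In N s.2.1 ∧ IsFN s.2.1 ∧
        ∃ r, SlF r ⊤ s.2.1) ∧ In N s.2.2 ∧ IsFN s.2.2) ∧
        s.1 ≤ c ∧ ∃ k, s.2.1 = uniF F y k ∧ s.1 ∈ Es e (DcF D s.2.1 m),
        gcF N (fun p m => f j j' (S p m)) ⊓ itpF (e j') s.1 s.2.1 s.2.2 ⊓
          capF 0 (fun p m => f j j' (S p m)) s.2.2) := by
  have hf := hch.ce j j' hjj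
  obtain ⟨-, -, i3, -, -, i6, i7, -, -, -, i11, -⟩ := hITP (A j) C (e j) (htop.ce j)
  obtain ⟨-, -, -, -, -, -, -, -, -, -, j11, -⟩ := hITP C C (fun a : C => a) ce_id
  obtain ⟨r', hr'⟩ := hFs
  obtain ⟨ry, hry⟩ := hys
  have hu : ∀ k, IsFN (uniF F y k) := fun k => (j11 F y k hFf hyf).1
  have hSl : ∀ k, SlF (max r' ry + 1) ⊤ (uniF F y k) := fun k => sl_uni hITP hFf hyf hr' hry k
  refine le_of_ae ?_
  filter_upwards [hN.seq j hj (WfF e j m c F z y D) (fun _ t => t.2.1) z (max r' ry + 1)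
    (hN.wf j hj m c hc F hF z hz y hy D hD) (hN.bf j hj) hz hzf (fun _ t => t.2.2) (fun k t => by
      unfold WfF
      split_ifs with h
      · exact i6 t.1 (uniF F y k) t.2.1 z k (hu k) t.2.2 hzf
          (by rw [agr_uni _ _ _ hyf]; exact h.2.trans inf_le_right)
      · exact bot_le) (fun k t => by
      unfold WfF
      split_ifs with h
      · exact i7 t.1 (uniF F y k) t.2.1 _ (hu k) t.2.2 (sl_mono le_rfl le_top (hSl k))
      · exact Eventually.of_forall fun g hg => (g.not_bot hg).elim) S hS] with g hg hu'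
  obtain ⟨hu1, hu2⟩ := g.mem_inf.1 hu'
  obtain ⟨hu3, hu4⟩ := g.mem_inf.1 hu1
  obtain ⟨k, -, t, ht, hw, hd⟩ := hg hu3 hu2 (fun k => by
    have h1 : prj (e j) (c ⊓ agrF (e j) z F k) ∈ g := g.mono (iInf_le _ k) hu4
    refine g.mono ?_ h1
    refine (prj_mono (htop.ce j) (le_sSup_Es hDP (sSup_DcF hDt (hu k) m) _)).trans ?_
    rw [prj_iSup (htop.ce j)]
    refine iSup_le fun c' => ?_
    rw [prj_iSup (htop.ce j)]
    refine iSup_le fun h => ?_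
    obtain ⟨zt, hzf', hzt, -⟩ := hLB (A j) C (e j) (htop.ce j) c' (uniF F y k) z (hu k) hzf
    refine le_iSup_of_le (c', ⟨zt, hzf'⟩) ?_
    unfold WfF
    rw [if_pos h]
    exact hzt) 0
  unfold WfF at hw
  split_ifs at hw with h
  · obtain ⟨ht1, ht2⟩ := hN.fs j hj t ht
    obtain ⟨-, -, -, -, -, -, -, q8, -, -, -, -⟩ := hITP (A j) (A j') (f j j') hf
    obtain ⟨q0, q1, q2, q3⟩ :=
      XhF_spec hLB hITP (htop.ce j') t.1 (hu k) (q8 t.2.1 t.2.2)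
    have hec : (fun a => e j' (f j j' a)) = e j := funext (htop.comp j j' hjj)
    have h4 := hITP2 (A j) (A j') C (f j j') (e j') hf (htop.ce j') t.1 (uniF F y k) t.2.1
      (XhF (e j') t.1 (uniF F y k) (fun p m => f j j' (t.2.1 p m))) (fun l => q3 l)
    rw [hec] at h4
    have hadN : In N (uniF F y k) := hN.ad F hF y hy k
    have hxhN : In N (XhF (e j') t.1 (uniF F y k) (fun p m => f j j' (t.2.1 p m))) :=
      hN.xh j' hj' t.1 ht1 _ hadN _ (hN.cf j hj j' hj' t.2.1 ht2)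
    have h5 := hN.pres j hj j' hj' hjj S (prj (e j') t.1) _ t.2.1 hS (hN.pj j' hj' t.1 ht1) hxhN
      q0 ⟨_, q1 _ (hSl k)⟩ ht2 t.2.2
    have h6 := g.mem_inf.2 ⟨g.mem_inf.2 ⟨hu3, g.mono h4 hw⟩, hd⟩
    refine g.mono (h5.trans (prj_mono hf ?_)) h6
    refine le_iSup_of_le (t.1, uniF F y k, XhF (e j') t.1 (uniF F y k)
      (fun p m => f j j' (t.2.1 p m)))
      (le_iSup_of_le ⟨⟨ht1, ⟨hadN, hu k, ⟨_, hSl k⟩⟩, hxhN, q0⟩, h.2.trans inf_le_left, k, rfl,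
        h.1⟩ ?_)
    exact inf_le_inf_right _ (inf_le_inf_left _ q2)
  · exact (g.not_bot hw).elim

theorem coreF (hLB : LbfStatement.{u}) (hITP : ItpfStatement.{u}) (hITP2 : Itp2fStatement.{u})
    (hAF : AfStatement.{u, u}) (hch : IsCh A f) (htop : IsTop A f e)
    (hTP : TP A f e) (hDP : DP A e) {N : Set El.{u}} (hN : CloF f e N) (hT : In N ({⊤} : Set C))
    (j : ℕ → L) (hj : Monotone j) (hjN : ∀ n, In N (j n)) (hjc : ∀ s, In N s → ∃ n, s ≤ j n)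
    (S : ℕ → ℕ → A (j 0)) (c : C) (F : ℕ → ℕ → C) (z : ℕ → ℕ → A (j 0)) (hS : IsFN S)
    (hc : In N c) (hF : In N F) (hFf : IsFN F) (hFs : ∃ r, SlF r ⊤ F) (hz : In N z)
    (hzf : IsFN z) :
    gcF N S ⊓ itpF (e (j 0)) c F z ⊓ capF 0 S z ≤ prj (e (j 0))
      (gcF N (fun p m => e (j 0) (S p m)) ⊓ c ⊓ capF 0 (fun p m => e (j 0) (S p m)) F) := by
  obtain ⟨D, hD⟩ := ((inj_count hN.cnt (Set C)).mono
    fun D (hD : D ∈ {D : Set C | In N D ∧ sSup D = ⊤}) => hD.1).exists_eq_range ⟨{⊤}, hT, by simp⟩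
  have hDN : ∀ n, In N (D n) ∧ sSup (D n) = ⊤ := fun n => by
    have : D n ∈ {D : Set C | In N D ∧ sSup D = ⊤} := hD ▸ ⟨n, rfl⟩
    exact this
  obtain ⟨y, hy⟩ := ((inj_count hN.cnt (ℕ → ℕ → C)).mono
    fun D (hD : D ∈ {y : ℕ → ℕ → C | In N y ∧ IsFN y ∧ ∃ r, SlF r ⊤ y}) =>
      hD.1).exists_eq_range ⟨F, hF, hFf, hFs⟩
  have hyN : ∀ n, In N (y n) ∧ IsFN (y n) ∧ ∃ r, SlF r ⊤ (y n) := fun n => by
    have : y n ∈ {y : ℕ → ℕ → C | In N y ∧ IsFN y ∧ ∃ r, SlF r ⊤ y} := hy ▸ ⟨n, rfl⟩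
    exact this
  let X : ℕ → Type u := fun n => {s : C × (ℕ → ℕ → C) × (ℕ → ℕ → A (j n)) //
    In N s.1 ∧ (In N s.2.1 ∧ IsFN s.2.1 ∧ ∃ r, SlF r ⊤ s.2.1) ∧ In N s.2.2 ∧ IsFN s.2.2}
  have hX : ∀ n, Countable (X n) := by
    intro n
    have c1 : Countable {t : C | In N t} := (inj_count hN.cnt C).to_subtype
    have c2 : Countable {t : ℕ → ℕ → C | In N t} := (inj_count hN.cnt _).to_subtype
    have c3 : Countable {t : ℕ → ℕ → A (j n) | In N t} := (inj_count hN.cnt _).to_subtype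
    refine Function.Injective.countable (f := fun s : X n =>
      ((⟨s.1.1, s.2.1⟩, ⟨s.1.2.1, s.2.2.1.1⟩, ⟨s.1.2.2, s.2.2.2.1⟩) :
        {t : C | In N t} × {t : ℕ → ℕ → C | In N t} × {t : ℕ → ℕ → A (j n) | In N t})) ?_
    rintro ⟨⟨a1, a2, a3⟩, ha⟩ ⟨⟨b1, b2, b3⟩, hb⟩ hab
    simp only [Prod.mk.injEq, Subtype.mk.injEq] at hab
    obtain ⟨rfl, rfl, rfl⟩ := hab
    rfl
  let U : ∀ n, X n → A (j n) := fun n s => gcF N (fun p m => f (j 0) (j n) (S p m)) ⊓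
    itpF (e (j n)) s.1.1 s.1.2.1 s.1.2.2 ⊓
      capF 0 (fun p m => f (j 0) (j n) (S p m)) s.1.2.2
  let E : ∀ n, X n → X (n + 1) → Prop := fun n s s' =>
    s'.1.1 ≤ s.1.1 ∧ ∃ k, s'.1.2.1 = uniF s.1.2.1 (y n) k ∧
      s'.1.1 ∈ Es e (DcF (D n) s'.1.2.1 n)
  have hSc : ∀ n p m, f (j n) (j (n + 1)) (f (j 0) (j n) (S p m)) = f (j 0) (j (n + 1)) (S p m) :=
    fun n p m => hch.comp _ _ _ (hj (Nat.zero_le n)) (hj (Nat.le_succ n)) _
  have hSn : ∀ n, IsFN fun p m => f (j 0) (j n) (S p m) := fun n =>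
    (hITP (A (j 0)) (A (j n)) (f (j 0) (j n))
      (hch.ce _ _ (hj (Nat.zero_le n)))).2.2.2.2.2.2.2.1 S hS
  have hstep : ∀ n s, U n s ≤ prj (f (j n) (j (n + 1))) (⨆ s', ⨆ _ : E n s s', U (n + 1) s') := by
    intro n s
    have h1 := stepF hLB hITP hITP2 hch htop hDP hN (hjN n) (hjN (n + 1))
      (hj (Nat.le_succ n)) (hSn n) n s.2.1 s.2.2.1.1 s.2.2.1.2.1 s.2.2.1.2.2 s.2.2.2.1 s.2.2.2.2
      (hyN n).1 (hyN n).2.1 (hyN n).2.2 (hDN n).1 (hDN n).2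
    refine h1.trans (prj_mono (hch.ce _ _ (hj (Nat.le_succ n))) ?_)
    refine iSup_le fun t => iSup_le fun ht => ?_
    simp only [hSc]
    exact le_iSup_of_le (⟨t, ht.1⟩ : X (n + 1)) (le_iSup_of_le ht.2 le_rfl)
  obtain ⟨p, hp, hae⟩ := hAF (fun n => A (j n)) (fun n => f (j n) (j (n + 1))) C
    (fun n => e (j n)) (fun n => hch.ce _ _ (hj (Nat.le_succ n))) (fun n => htop.ce _)
    (fun n a => htop.comp _ _ (hj (Nat.le_succ n)) a) (fun q hq => hTP j hj q hq) X U E hstep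
    ⟨(c, F, z), hc, ⟨hF, hFf, hFs⟩, hz, hzf⟩ _ le_rfl
  have hU0 : U 0 ⟨(c, F, z), hc, ⟨hF, hFf, hFs⟩, hz, hzf⟩ =
      gcF N S ⊓ itpF (e (j 0)) c F z ⊓ capF 0 S z := by
    simp only [U, hch.id]
  rw [← hU0, ← hp]
  refine prj_mono (htop.ce _) (le_of_ae ?_)
  have hsup : ∀ᶠ h in ae C, ∀ c' : {c' : C // In N c'}, (supp e c'.1).Countable →
      (∀ s ∈ supp e c'.1, e s (prj (e s) c'.1) ∈ h) →
      (⨅ s ∈ supp e c'.1, e s (prj (e s) c'.1)) ∈ h := by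
    have hcc : Countable {c' : C // In N c'} := (inj_count hN.cnt C).to_subtype
    refine ae_all fun c' => ?_
    by_cases hcnt : (supp e c'.1).Countable
    · have hcc' := hcnt.to_subtype
      filter_upwards [ae_iInf fun s : supp e c'.1 => e s.1 (prj (e s.1) c'.1)] with h hh _ hs
      rw [iInf_subtype']
      exact hh.2 fun s => hs s.1 s.2
    · exact Eventually.of_forall fun h hh => absurd hh hcnt
  obtain ⟨-, -, -, -, -, -, -, -, -, k10, k11, k12⟩ := hITP C C (fun a : C => a) ce_id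
  obtain ⟨-, -, -, -, -, -, -, l8, -, -, -, -⟩ := hITP (A (j 0)) C (e (j 0)) (htop.ce (j 0))
  have hS0 : IsFN fun p m => e (j 0) (S p m) := l8 S hS
  -- names in `N`
  have a1 : ∀ᶠ h in ae C, ∀ G : {G : ℕ → ℕ → C // In N G ∧ IsFN G ∧ ∃ r, SlF r ⊤ G},
      (∀ p, ∃! k, G.1 p k ∈ h) ∧
      (∀ n, capF n (fun p m => e (j 0) (S p m)) G.1 ∈ h ↔ ∀ p, n ≤ p →
        dS (fv G.1 h p) ⊆ dS (fv (fun p m => e (j 0) (S p m)) h p)) ∧
      ∀ (G' : {G : ℕ → ℕ → C // In N G ∧ IsFN G ∧ ∃ r, SlF r ⊤ G}) (k : ℕ), ∀ p,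
        dS (fv (uniF G.1 G'.1 k) h p) =
          if k ≤ p then dS (fv G.1 h p) ∪ dS (fv G'.1 h p) else dS (fv G.1 h p) := by
    have hcc : Countable {G : ℕ → ℕ → C // In N G ∧ IsFN G ∧ ∃ r, SlF r ⊤ G} :=
      ((inj_count hN.cnt (ℕ → ℕ → C)).mono fun G hG => hG.1).to_subtype
    refine ae_all fun G => ?_
    have b1 : ∀ᶠ h in ae C, ∀ n, capF n (fun p m => e (j 0) (S p m)) G.1 ∈ h ↔ ∀ p, n ≤ p →
        dS (fv G.1 h p) ⊆ dS (fv (fun p m => e (j 0) (S p m)) h p) :=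
      ae_all fun n => k10 n _ _ hS0 G.2.2.1
    have b2 : ∀ᶠ h in ae C, ∀ (G' : {G : ℕ → ℕ → C // In N G ∧ IsFN G ∧ ∃ r, SlF r ⊤ G})
        (k : ℕ), ∀ p, dS (fv (uniF G.1 G'.1 k) h p) =
          if k ≤ p then dS (fv G.1 h p) ∪ dS (fv G'.1 h p) else dS (fv G.1 h p) :=
      ae_all fun G' => ae_all fun k => (k11 G.1 G'.1 k G.2.2.1 G'.2.2.1).2
    filter_upwards [G.2.2.1, b1, b2] with h b0 b1 b2
    exact ⟨b0, b1, b2⟩
  have a2 : ∀ᶠ h in ae C, ∀ (n : ℕ) (G : {G : ℕ → ℕ → A (j n) // In N G ∧ IsFN G}),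
      (∀ p, ∃! k, e (j n) (G.1 p k) ∈ h) ∧
      (capF 0 (fun p m => e (j 0) (S p m)) (fun p m => e (j n) (G.1 p m)) ∈ h ↔ ∀ p, 0 ≤ p →
        dS (fv (fun p m => e (j n) (G.1 p m)) h p) ⊆
          dS (fv (fun p m => e (j 0) (S p m)) h p)) := by
    refine ae_all fun n => ?_
    have hcc : Countable {G : ℕ → ℕ → A (j n) // In N G ∧ IsFN G} :=
      ((inj_count hN.cnt (ℕ → ℕ → A (j n))).mono fun G hG => hG.1).to_subtype
    refine ae_all fun G => ?_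
    have hG := (hITP (A (j n)) C (e (j n)) (htop.ce (j n))).2.2.2.2.2.2.2.1 G.1 G.2.2
    filter_upwards [hG, k10 0 _ _ hS0 hG] with h b0 b1
    exact ⟨b0, b1⟩
  filter_upwards [hae, ae_gen (A := C) hN.cnt, k12 N hN.cnt (fun p m => e (j 0) (S p m)), hsup,
    a1, a2] with h h1 h2 h3 h4 h5 h6 hph
  obtain ⟨ξ, hξ0, hξ⟩ := h1 hph
  have hU : ∀ n, e (j n) (U n (ξ n)) ∈ h := fun n => (hξ n).2
  have hUU : ∀ n, (e (j n) (gcF N (fun p m => f (j 0) (j n) (S p m))) ∈ h ∧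
      e (j n) (itpF (e (j n)) (ξ n).1.1 (ξ n).1.2.1 (ξ n).1.2.2) ∈ h) ∧
      e (j n) (capF 0 (fun p m => f (j 0) (j n) (S p m)) (ξ n).1.2.2) ∈ h := by
    intro n
    have h6 := hU n
    simp only [U] at h6
    rw [ce_inf (htop.ce _), ce_inf (htop.ce _), h.mem_inf, h.mem_inf] at h6
    exact h6
  have hca : ∀ m l, m ≤ l → (ξ l).1.1 ≤ (ξ m).1.1 := fun m l hml =>
    antitone_nat_of_succ_le (f := fun n => (ξ n).1.1) (fun n => (hξ n).1.1) hml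
  -- the names `F n` increase
  have hxm : ∀ p m l, m ≤ l → dS (fv (ξ m).1.2.1 h p) ⊆ dS (fv (ξ l).1.2.1 h p) :=
    fun p m l hml => monotone_nat_of_le_succ (f := fun n => dS (fv (ξ n).1.2.1 h p)) (fun n => by
      obtain ⟨-, k', h7, -⟩ := (hξ n).1
      have h8 := (h5 ⟨(ξ n).1.2.1, (ξ n).2.2.1⟩).2.2 ⟨y n, hyN n⟩ k' p
      dsimp only at h8
      rw [h7, h8]
      split_ifs
      · exact Finset.subset_union_left
      · exact le_rfl) hml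
  have hprj : ∀ n, e (j n) (prj (e (j n)) (ξ n).1.1) ∈ h := by
    intro n
    have p3 := (hITP (A (j n)) C (e (j n)) (htop.ce _)).2.2.1
    exact h.mono (ce_mono (htop.ce _) (p3 _ _ _)) (hUU n).1.2
  have hcm : ∀ m, (ξ (m + 1)).1.1 ∈ h := by
    intro m
    obtain ⟨-, -, -, -, hcnt, -, heq⟩ := (hξ m).1
    have h6 := h4 ⟨(ξ (m + 1)).1.1, (ξ (m + 1)).2.1⟩ hcnt (fun s hs => by
      have hsN : In N s := hN.st _ (hN.sp _ (ξ (m + 1)).2.1) hcnt s hs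
      obtain ⟨l, hl⟩ := hjc s hsN
      have hsl : s ≤ j (max l (m + 1)) := hl.trans (hj (le_max_left _ _))
      refine h.mono ?_ (hprj (max l (m + 1)))
      refine (ce_mono (htop.ce _) (prj_mono (htop.ce _)
        (hca (m + 1) (max l (m + 1)) (le_max_right _ _)))).trans ?_
      have g1 : prj (e s) (ξ (m + 1)).1.1 =
          prj (f s (j (max l (m + 1)))) (prj (e (j (max l (m + 1)))) (ξ (m + 1)).1.1) := by
        have g2 : e s = fun y => e (j (max l (m + 1))) (f s (j (max l (m + 1))) y) := by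
          funext y
          exact (htop.comp _ _ hsl y).symm
        rw [g2, prj_comp (hch.ce _ _ hsl) (htop.ce _)]
      dsimp only
      rw [g1, ← htop.comp _ _ hsl]
      exact ce_mono (htop.ce _) (le_prj (hch.ce _ _ hsl) _))
    dsimp only at h6
    rw [← heq] at h6
    exact h6
  -- the slaloms are captured
  have hdj : ∀ m n, dS (fv (ξ m).1.2.1 h n) ⊆ dS (fv (fun p m => e (j 0) (S p m)) h n) := by
    intro m n
    obtain ⟨-, k, -, ⟨d, ⟨-, hd⟩, hd'⟩, -⟩ := (hξ (max m n)).1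
    obtain ⟨v, hv⟩ := hd n (le_max_right _ _)
    refine (hxm n m (max m n + 1) ((le_max_left _ _).trans (Nat.le_succ _))).trans ?_
    have h7 : (ξ (max m n + 1)).1.2.1 n v ∈ h := h.mono (hd'.trans hv) (hcm (max m n))
    have h8 : fv (ξ (max m n + 1)).1.2.1 h n = v :=
      fv_eq ((h5 ⟨(ξ (max m n + 1)).1.2.1, (ξ (max m n + 1)).2.2.1⟩).1 n) h7
    have h9 := h.mono (ce_mono (htop.ce _) (itpF_le (htop.ce (j (max m n + 1)))
        (ξ (max m n + 1)).2.2.1.2.1 (Z := (ξ (max m n + 1)).1.2.2) (hd'.trans hv)))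
        (hUU (max m n + 1)).1.2
    have h10 := h6 (max m n + 1) ⟨(ξ (max m n + 1)).1.2.2, (ξ (max m n + 1)).2.2.2⟩
    have h11 : fv (fun p m' => e (j (max m n + 1)) ((ξ (max m n + 1)).1.2.2 p m')) h n = v :=
      fv_eq (h10.1 n) h9
    have h12 := (hUU (max m n + 1)).2
    rw [(hITP (A (j (max m n + 1))) C (e (j (max m n + 1))) (htop.ce _)).2.2.2.2.2.2.2.2.1] at h12
    simp only [htop.comp _ _ (hj (Nat.zero_le _))] at h12
    have h13 := h10.2.1 h12 n (Nat.zero_le _)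
    dsimp only at h13
    rw [h11] at h13
    rw [h8]
    exact h13
  have hgen : gen C N ∈ h := by
    refine h2 fun D' hD' hDt' => ?_
    obtain ⟨m, rfl⟩ : D' ∈ Set.range D := hD ▸ ⟨hD', hDt'⟩
    obtain ⟨-, k, -, ⟨d, ⟨⟨d', hd1, hd2⟩, -⟩, hd3⟩, -⟩ := (hξ m).1
    obtain ⟨p1, p2⟩ := pick_spec (D := D m) (d := (ξ (m + 1)).1.1) ⟨d', hd1, hd3.trans hd2⟩
    exact ⟨_, p1, hN.pk _ _ hD' (ξ (m + 1)).2.1, h.mono p2 (hcm m)⟩
  refine h.mem_inf.2 ⟨h.mem_inf.2 ⟨h3.2 ⟨hgen, fun G hG hGf hGs => ?_⟩, ?_⟩, ?_⟩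
  · obtain ⟨m, rfl⟩ : G ∈ Set.range y := hy ▸ ⟨hG, hGf, hGs⟩
    obtain ⟨-, k, hk, -⟩ := (hξ m).1
    refine ⟨k, ((h5 ⟨y m, hyN m⟩).2.1 k).2 fun p hp => ?_⟩
    refine subset_trans ?_ (hdj (m + 1) p)
    have h8 := (h5 ⟨(ξ m).1.2.1, (ξ m).2.2.1⟩).2.2 ⟨y m, hyN m⟩ k p
    dsimp only at h8
    rw [hk, h8, if_pos hp]
    exact Finset.subset_union_right
  · have h6 := h.mono (hca 0 1 (Nat.zero_le _)) (hcm 0)
    rw [hξ0] at h6
    exact h6
  · refine ((h5 ⟨F, hF, hFf, hFs⟩).2.1 0).2 fun p _ => ?_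
    have h7 := hdj 0 p
    rw [hξ0] at h7
    exact h7

end

theorem prlimf (hSEQ : SeqfStatement.{u}) (hITP : ItpfStatement.{u}) (hLB : LbfStatement.{u})
    (hITP2 : Itp2fStatement.{u}) : PrlimfStatement.{u} := by
  intro L _ A _ f C _ e hch htop hTP hDP hPR i
  filter_upwards [ev_cloF (e := e) hSEQ hPR, ev_const i, ev_const ({⊤} : Set C)]
    with N hN hi hT S c F z hS hc hF hFf hFs hz hzf
  obtain ⟨l, hl⟩ := (inj_count hN.cnt L).exists_eq_range ⟨i, hi⟩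
  have hlN : ∀ n, In N (l n) := fun n => by
    have : l n ∈ {t : L | In N t} := hl ▸ ⟨n, rfl⟩
    exact this
  let j : ℕ → L := fun n => Nat.rec i (fun n x => max x (l n)) n
  have hjs : ∀ n, j (n + 1) = max (j n) (l n) := fun n => rfl
  have hj : Monotone j := monotone_nat_of_le_succ fun n => by rw [hjs]; exact le_max_left _ _
  have hjN : ∀ n, In N (j n) := by
    intro n
    induction n with
    | zero => exact hi
    | succ n ih =>
      rw [hjs]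
      rcases max_choice (j n) (l n) with h | h
      · rw [h]; exact ih
      · rw [h]; exact hlN n
  have hjc : ∀ x : L, In N x → ∃ n, x ≤ j n := by
    intro x hx
    obtain ⟨n, rfl⟩ : x ∈ Set.range l := hl ▸ hx
    exact ⟨n + 1, by rw [hjs]; exact le_max_right _ _⟩
  exact coreF hLB hITP hITP2 H97.af hch htop hTP hDP hN hT j hj hjN hjc S c F z hS hc hF hFf hFs
    hz hzf

end Pool.Agent.Lib.MP_a78e1f_lc.H57
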